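import Pool.Agent.FB.W9.NS

/-!
# FB/W9, module H39: the step in all cases and the assembly of the first trace in part I
-/

set_option autoImplicit false

open Filter Asymptotics Topology Matrix LaurentPolynomial Pool.RU Pool.Agent.FB.W8

namespace Pool.Agent.FB.W9

/-! ### facts about a block -/

theorem facts {t : ℤ × ℤ × ℤ} (ht : Hyp5 t) (h2 : ty t ≠ 2) : ∃ M e : ℤ, M = max t.1 t.2.1 ∧
    e = |t.1 - t.2.1| ∧ SSTF_ex t (ty t) = M ∧ 5 ≤ M ∧ SSTF_ex t (sw (ty t)) = M - e ∧ 0 ≤ e ∧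
    (e ≤ 1 → 0 < t.1) ∧ (e = 0 ↔ t.1 = t.2.1) := by
  obtain ⟨h3, h4, -⟩ := ht
  have h7 : ¬ (t.1 < 0 ∧ t.2.1 < 0) := fun h => h2 ((ty_two_iff t).2 h)
  refine ⟨max t.1 t.2.1, |t.1 - t.2.1|, rfl, rfl, ?_⟩
  have h8 : ty t = if t.2.1 < t.1 then 0 else 1 := by
    unfold ty
    rw [if_neg h7]
  rw [h8]
  by_cases h9 : t.2.1 < t.1
  · rw [if_pos h9]
    have e1 : SSTF_ex t 0 = t.1 := rfl
    have e2 : SSTF_ex t (sw 0) = t.2.1 := rfl
    rw [e1, e2, max_eq_left h9.le, abs_of_pos (by omega)]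
    refine ⟨rfl, ?_, by ring, by omega, ?_, ?_⟩
    · rcases abs_cases t.1 with ⟨e3, _⟩ | ⟨e3, _⟩ <;> omega
    · intro h
      rcases abs_cases t.1 with ⟨e3, _⟩ | ⟨e3, _⟩ <;> omega
    · constructor <;> intro h <;> omega
  · rw [if_neg h9]
    have e1 : SSTF_ex t 1 = t.2.1 := rfl
    have e2 : SSTF_ex t (sw 1) = t.1 := rfl
    rw [e1, e2, max_eq_right (not_lt.1 h9), abs_of_nonpos (by omega)]
    refine ⟨rfl, ?_, by ring, by omega, ?_, ?_⟩
    · rcases abs_cases t.2.1 with ⟨e3, _⟩ | ⟨e3, _⟩ <;> omega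
    · intro h
      rcases abs_cases t.1 with ⟨e3, _⟩ | ⟨e3, _⟩ <;> rcases abs_cases t.2.1 with ⟨e5, _⟩ | ⟨e5, _⟩ <;> omega
    · constructor <;> intro h <;> omega

/-! ### the step -/

variable {S : Finset (ℤ × ℤ × ℤ × ℤ)} {Y : Option (Fin 3)} {D B : ℤ} {V : ℝ → Fin 3 → ℝ}

theorem Good9.of_H3 (hA : Aut S) {X : Fin 3} (b : ℤ) (h : H3_Good S X D B V) : Good9 S (some X) D B b V := by
  refine ⟨fun _ => G2S hA h, fun _ => ⟨fun h => absurd h (by simp), fun Z hZ => ?_⟩⟩
  obtain rfl : X = Z := by simpa using hZ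
  exact h

theorem Good9.of_tie (b : ℤ) (h : TieGood D B V) : Good9 S none D B b V :=
  ⟨fun _ => T2S h, fun _ => ⟨fun _ => h, fun Z hZ => absurd hZ (by simp)⟩⟩

theorem Good9.of_sum {b : ℤ} (hb : 0 < b) (h : SumGood D B V) : Good9 S Y D B b V :=
  ⟨fun _ => h, fun hb' => absurd hb' (by omega)⟩

theorem lab_two {t : ℤ × ℤ × ℤ} (h : ty t = 2) : lab t = some 2 := by
  have h1 := (ty_two_iff t).1 h
  unfold lab
  rw [if_neg (by omega), h]

/-- the step at a block of type `2` -/
theorem step_two (hA : Aut S) (t : ℤ × ℤ × ℤ) (ht : Hyp5 t) (h2 : ty t = 2) (h : Good9 S Y D B t.2.2 V) :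
    H3_Good S 2 (D + dl9 Y t) (B + 24) (stp t V) := by
  have h3 := (ty_two_iff t).1 h2
  obtain ⟨g1, g2, g3⟩ := ht
  rw [abs_of_neg h3.1] at g1
  rw [abs_of_neg h3.2] at g2
  have ha : t.1 ≤ -5 := by omega
  have hc : t.2.1 ≤ -5 := by omega
  by_cases hb : 0 < t.2.2
  · rw [abs_of_pos hb] at g3
    have hdl : dl9 Y t = t.2.2 := by
      unfold dl9
      rw [if_pos hb, if_pos h2]
    rw [hdl]
    exact E_two hA (h.1 hb) g3 ha hc
  · have hb' : t.2.2 ≤ -5 := by
      rcases abs_cases t.2.2 with ⟨e3, _⟩ | ⟨e3, _⟩ <;> omega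
    rcases hY : Y with _ | X
    · have hdl : dl9 none t = 0 := by
        unfold dl9
        rw [if_neg hb, if_pos h2]
        simp
      rw [hdl, add_zero]
      exact Tf_two ((h.2 (by omega)).1 hY) hb' ha hc
    · have hdl : dl9 (some X) t = dl X t := by
        unfold dl9 dl
        rw [if_neg hb, if_pos h2, if_neg hb, if_pos h2]
        simp
      rw [hdl]
      exact F_two hA ((h.2 (by omega)).2 X hY) hb' ha hc

/-- the step at a block with `b < 0` which is not of type `2`, `|a - c| ≥ 2` -/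
theorem step_far (hA : Aut S) (t : ℤ × ℤ × ℤ) (ht : Hyp5 t) (h2 : ty t ≠ 2) (he : 2 ≤ |t.1 - t.2.1|)
    (hb : t.2.2 < 0) (h : Good9 S Y D B t.2.2 V) : H3_Good S (ty t) (D + dl9 Y t) (B + 18) (stp t V) := by
  obtain ⟨M, e, hM, hee, f1, f2, f3, f4, f5, f6⟩ := facts ht h2
  have hne : t.1 ≠ t.2.1 := by
    intro h
    rw [h, sub_self, abs_zero] at he
    omega
  have hb' : t.2.2 ≤ -5 := by
    have := ht.2.2
    rw [abs_of_neg hb] at this
    omega
  rcases hY : Y with _ | X
  · have hdl : dl9 none t = M := by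
      unfold dl9
      rw [if_neg (by omega), if_neg h2]
      simp [hM]
    rw [hdl]
    exact Tf_i hA ((h.2 hb).1 hY) hb' ⟨h2, f1, f2, f3, by omega⟩ (by omega)
  · have hdl : dl9 (some X) t = dl X t := by
      have hb0 : ¬ 0 < t.2.2 := by omega
      simp only [dl9, dl, if_neg hb0, if_neg h2]
      by_cases hX : X = 2
      · rw [hX, if_pos rfl, if_neg (fun h => h2 h.symm)]
      · have c1 : ¬ (some X : Option (Fin 3)) = some 2 := by simpa using hX
        rw [if_neg c1]
        by_cases hXt : X = ty t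
        · have c2 : (some X : Option (Fin 3)) = none ∨ t.1 = t.2.1 ∨ (some X : Option (Fin 3)) = some (ty t) :=
            Or.inr (Or.inr (by rw [hXt]))
          rw [if_pos c2, if_pos hXt]
        · have c2 : ¬ ((some X : Option (Fin 3)) = none ∨ t.1 = t.2.1 ∨
              (some X : Option (Fin 3)) = some (ty t)) := by
            simp [hne, hXt]
          rw [if_neg c2, if_neg hXt]
    have h3 := F_old hA ((h.2 hb).2 X hY) (t := t) ⟨ht.1, ht.2.1, ht.2.2, he⟩
    rw [if_neg h2] at h3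
    rw [hdl]
    exact h3

/-- the step at a near tie with `b < 0` -/
theorem step_near (hA : Aut S) (t : ℤ × ℤ × ℤ) (ht : Hyp5 t) (h2 : ty t ≠ 2) (he : |t.1 - t.2.1| ≤ 1)
    (hb : t.2.2 < 0) (h : Good9 S Y D B t.2.2 V) : SumGood (D + dl9 Y t) (B + 18) (stp t V) := by
  obtain ⟨M, e, hM, hee, f1, f2, f3, f4, f5, f6⟩ := facts ht h2
  have he01 : e = 0 ∨ e = 1 := by omega
  have hb' : t.2.2 ≤ -5 := by
    have := ht.2.2
    rw [abs_of_neg hb] at this
    omega
  rcases hY : Y with _ | X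
  · have hdl : dl9 none t = M := by
      unfold dl9
      rw [if_neg (by omega), if_neg h2]
      simp [hM]
    rw [hdl]
    exact Tf_near ((h.2 hb).1 hY) hb' f2 h2 f1 he01 f3
  · have hG := (h.2 hb).2 X hY
    by_cases hX : X = 2
    · have hdl : dl9 (some X) t = M - 1 := by
        unfold dl9
        rw [if_neg (by omega), if_neg h2, hX, if_pos rfl, hM]
      rw [hdl]
      rw [hX] at hG
      exact N_two hG hA hb' ⟨h2, f1, f2, f3, he01⟩
    · have c1 : ¬ (some X : Option (Fin 3)) = some 2 := by simpa using hX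
      rcases he01 with h0 | h1
      · have hac := f6.1 h0
        have hdl : dl9 (some X) t = M := by
          unfold dl9
          rw [if_neg (by omega), if_neg h2, if_neg c1, if_pos (Or.inr (Or.inl hac)), hM]
        have hexa : ∀ k : Fin 3, k ≠ 2 → SSTF_ex t k = M := by
          intro k hk
          rw [hM, ← hac, max_self]
          fin_cases k
          · rfl
          · exact hac.symm
          · exact absurd rfl hk
        rw [hdl]
        refine N_eq hG hA hX hb' ⟨hX, hexa X hX, f2, ?_, Or.inl rfl⟩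
        rw [hexa _ (SSTF_sw hX).1, sub_zero]
      · have hne : t.1 ≠ t.2.1 := fun h => by
          have := f6.2 h
          omega
        rw [h1] at f3
        by_cases hXt : X = ty t
        · have hdl : dl9 (some X) t = M := by
            unfold dl9
            rw [if_neg (by omega), if_neg h2, if_neg c1, if_pos (Or.inr (Or.inr (by rw [hXt]))), hM]
          rw [hdl]
          refine N_same hG hA hX hb' ⟨hX, ?_, f2, ?_, Or.inr rfl⟩
          · rw [hXt]
            exact f1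
          · rw [hXt]
            exact f3
        · have hdl : dl9 (some X) t = M - 1 := by
            have c2 : ¬ ((some X : Option (Fin 3)) = none ∨ t.1 = t.2.1 ∨
                (some X : Option (Fin 3)) = some (ty t)) := by
              simp [hne, hXt]
            unfold dl9
            rw [if_neg (by omega), if_neg h2, if_neg c1, if_neg c2, hM]
          have hsw : sw X = ty t := by
            generalize ty t = i at *
            fin_cases X <;> fin_cases i <;> simp_all [sw]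
          rw [hdl]
          refine N_change hG hX hb' ⟨?_, ?_, f2, ?_, Or.inr rfl⟩
          · rw [hsw]
            exact h2
          · rw [hsw]
            exact f1
          · rw [hsw]
            exact f3

/-- **the step** -/
theorem step9 (hA : Aut S) (t : ℤ × ℤ × ℤ) (b' : ℤ) (ht : Hyp5 t)
    (hn : 0 < t.1 → |t.1 - t.2.1| ≤ 1 → 0 < t.2.2 ∨ 0 < b') (h : Good9 S Y D B t.2.2 V) :
    Good9 S (lab t) (D + dl9 Y t) (B + if ty t = 2 then 24 else 18) b' (stp t V) := by
  by_cases h2 : ty t = 2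
  · rw [if_pos h2, lab_two h2]
    exact Good9.of_H3 hA b' (step_two hA t ht h2 h)
  rw [if_neg h2]
  obtain ⟨M, e, hM, hee, f1, f2, f3, f4, f5, f6⟩ := facts ht h2
  by_cases hb : 0 < t.2.2
  · have hb5 : 5 ≤ t.2.2 := by
      have := ht.2.2
      rw [abs_of_pos hb] at this
      exact this
    have hdl : dl9 Y t = t.2.2 + M - 1 := by
      unfold dl9
      rw [if_pos hb, if_neg h2, hM]
    rw [hdl]
    by_cases he : e = 0
    · have hac := f6.1 he
      have hpos := f5 (by omega)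
      have hl : lab t = none := by
        unfold lab
        rw [if_pos ⟨hac, hpos⟩]
      have hMt : M = t.1 := by
        rw [hM, ← hac, max_self]
      rw [hl, hMt]
      exact Good9.of_tie b' (E_tie (h.1 hb) hb5 hac (by omega))
    · have hne : t.1 ≠ t.2.1 := fun h => he (f6.2 h)
      have hl : lab t = some (ty t) := by
        unfold lab
        rw [if_neg (fun h => hne h.1)]
      rw [hl]
      exact Good9.of_H3 hA b' (E_i hA (h.1 hb) hb5 ⟨h2, f1, f2, f3, by omega⟩)
  · have hb' : t.2.2 < 0 := by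
      have := ht.2.2
      rcases abs_cases t.2.2 with ⟨e3, _⟩ | ⟨e3, _⟩ <;> omega
    by_cases he : 2 ≤ |t.1 - t.2.1|
    · have hne : t.1 ≠ t.2.1 := by
        intro h
        rw [h, sub_self, abs_zero] at he
        omega
      have hl : lab t = some (ty t) := by
        unfold lab
        rw [if_neg (fun h => hne h.1)]
      rw [hl]
      exact Good9.of_H3 hA b' (step_far hA t ht h2 he hb' h)
    · have he' : |t.1 - t.2.1| ≤ 1 := by omega
      rcases hn (f5 (by omega)) he' with h3 | h3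
      · exact absurd h3 hb
      · exact Good9.of_sum h3 (step_near hA t ht h2 he' hb' h)

/-! ### degrees -/

/-- the degree won at the list -/
def dg9 : Option (Fin 3) → List (ℤ × ℤ × ℤ) → ℤ
  | _, [] => 0
  | Y, t :: β => dl9 Y t + dg9 (lab t) β

theorem dl9_le (t : ℤ × ℤ × ℤ) (Y Z : Option (Fin 3)) : dl9 Y t ≤ dl9 Z t + 1 := by
  unfold dl9
  split_ifs <;> omega

theorem dg9_le (β : List (ℤ × ℤ × ℤ)) (Y Z : Option (Fin 3)) : dg9 Y β ≤ dg9 Z β + 1 := by
  cases β with
  | nil => simp [dg9]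
  | cons t β =>
    have := dl9_le t Y Z
    simp only [dg9]
    omega

theorem gr_le_dl9 {t : ℤ × ℤ × ℤ} (h : Hyp5 t) (Y : Option (Fin 3)) : gr t - 1 ≤ dl9 Y t := by
  obtain ⟨h1, h2, h3⟩ := h
  have h5 := ty_two_iff t
  unfold dl9 gr
  by_cases hty : ty t = 2
  · have h6 := h5.1 hty
    simp only [hty, if_true]
    split_ifs <;> omega
  · have h6 : ¬ (t.1 < 0 ∧ t.2.1 < 0) := fun h => hty (h5.2 h)
    simp only [hty, if_false]
    rcases abs_cases t.1 with ⟨e1, _⟩ | ⟨e1, _⟩ <;> rcases abs_cases t.2.1 with ⟨e2, _⟩ | ⟨e2, _⟩ <;>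
      rcases abs_cases t.2.2 with ⟨e3, _⟩ | ⟨e3, _⟩ <;> split_ifs <;> omega

theorem dg9_ge {β : List (ℤ × ℤ × ℤ)} (h : ∀ x ∈ β, Hyp5 x) (Y : Option (Fin 3)) :
    (β.map gr).sum - β.length ≤ dg9 Y β := by
  induction β generalizing Y with
  | nil => simp [dg9]
  | cons t β ih =>
    have h1 := gr_le_dl9 (h t (by simp)) Y
    have h2 := ih (fun x hx => h x (by simp [hx])) (lab t)
    simp only [List.map_cons, List.sum_cons, List.length_cons, dg9]
    push_cast
    omega

/-! ### the fold -/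

theorem fold9 (hA : Aut S) (t : ℤ × ℤ × ℤ) (h2 : ty t = 2) (β : List (ℤ × ℤ × ℤ)) :
    ∀ {Y : Option (Fin 3)} {D B : ℤ} {V : ℝ → Fin 3 → ℝ}, (∀ x ∈ β ++ [t], Hyp5 x) →
      List.IsChain NTp (β ++ [t]) → (∀ x l, β ++ [t] = x :: l → Good9 S Y D B x.2.2 V) →
      ∃ B' : ℤ, B + 18 * β.length + 24 ≤ B' ∧ H3_Good S 2 (D + dg9 Y (β ++ [t])) B' (H3_run (β ++ [t]) V) := by
  induction β with
  | nil =>
    intro Y D B V hH _ hG
    refine ⟨B + 24, by simp, ?_⟩
    have h1 := step_two hA t (hH t (by simp)) h2 (hG t [] rfl)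
    simpa only [List.nil_append, dg9, add_zero, H3_run_cons, H3_run_nil] using h1
  | cons x β ih =>
    intro Y D B V hH hC hG
    obtain ⟨y, l, hl⟩ : ∃ y l, β ++ [t] = y :: l := by
      cases β with
      | nil => exact ⟨t, [], rfl⟩
      | cons y β => exact ⟨y, β ++ [t], rfl⟩
    have hx : Good9 S Y D B x.2.2 V := hG x (β ++ [t]) rfl
    rw [List.cons_append, hl, List.isChain_cons_cons] at hC
    have h1 := step9 hA x y.2.2 (hH x (by simp)) hC.1 hx
    have h3 : ∀ z l', β ++ [t] = z :: l' → Good9 S (lab x) (D + dl9 Y x) (B + if ty x = 2 then 24 else 18)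
        z.2.2 (stp x V) := by
      intro z l' hz
      rw [hl] at hz
      obtain ⟨rfl, -⟩ := List.cons.inj hz
      exact h1
    obtain ⟨B', hB', h4⟩ := ih (fun z hz => hH z (List.mem_cons_of_mem _ hz)) (hl ▸ hC.2) h3
    refine ⟨B', ?_, ?_⟩
    · simp only [List.length_cons]
      push_cast
      split_ifs at hB' <;> linarith
    · simpa only [List.cons_append, dg9, add_assoc, H3_run_cons] using h4

/-! ### the start vectors -/

theorem start9 (hA : Aut S) (i : Fin 3) : H3_Good S i 0 0 (H3_e i) := by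
  by_cases hi : i = 2
  · rw [hi]
    exact H3_start hA.h0 hA.hp0
  · have hW := H3_startW hi
    refine ⟨1, 0, by norm_num, hW, fun _ => ⟨0, 0, 0, (0, 0, 0, 0), ⟨?_, fun h => absurd h hi, fun _ => ⟨?_,
      (hW.2.2.2 hi).2⟩⟩, hA.h0, ?_⟩⟩
    · unfold Hd
      simp only [H3_e, Pi.single_eq_same, zpow_zero]
      refine (isBigO_zero (fun w : ℝ => w ^ 4) (𝓝[>] (0 : ℝ))).congr_left fun w => ?_
      ring
    · have : sw i ≠ i := by
        fin_cases i <;> simp_all [sw]
      simp only [H3_e, Pi.single_eq_of_ne this]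
      refine (isBigO_zero (fun w : ℝ => w ^ 5) (𝓝[>] (0 : ℝ))).congr_left fun w => ?_
      push_cast
      ring
    · rw [hA.hp0]
      unfold Lf
      norm_num

/-! ### the theorem -/

theorem thm_H39 (hA : St_A9) : St_H39 := by
  intro β t hyp hC ht1 ht2
  obtain ⟨S, a1, a2, a3, a4, a5, a6, a7⟩ := hA
  have hA : Aut S := ⟨a1, a2, a3, a4, a5, a6, a7⟩
  have hty : ty t = 2 := (ty_two_iff t).2 ⟨ht1, ht2⟩
  have hG : ∀ i : Fin 3, ∃ B' : ℤ, 18 * β.length + 24 ≤ B' ∧
      H3_Good S 2 (dg9 (some i) (β ++ [t])) B' (H3_run (β ++ [t]) (H3_e i)) := by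
    intro i
    obtain ⟨B', h1, h2⟩ := fold9 hA t hty β (Y := some i) (D := 0) (B := 0) (V := H3_e i) hyp hC
      (fun x l _ => Good9.of_H3 hA _ (start9 hA i))
    rw [zero_add] at h1 h2
    exact ⟨B', h1, h2⟩
  obtain ⟨B, hB, s, κ, hs1, hWV, hSV⟩ := hG 2
  set D := dg9 (some 2) (β ++ [t]) with hD
  -- the two other diagonal entries
  have hother : ∀ i : Fin 3, i ≠ 2 →
      (fun w : ℝ => w ^ D * H3_run (β ++ [t]) (H3_e i) w i) =O[𝓝[>] (0 : ℝ)] fun w => w ^ 4 := by
    intro i hi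
    obtain ⟨B', -, s', κ', -, h3, -⟩ := hG i
    have h4 := h3.2.2.1 rfl
    have h5 : (fun w : ℝ => w ^ (dg9 (some i) (β ++ [t])) * H3_run (β ++ [t]) (H3_e i) w i) =O[𝓝[>] (0 : ℝ)]
        fun w => w ^ 5 := by
      have h6 : i = 0 ∨ i = 1 := by
        fin_cases i <;> simp_all
      rcases h6 with rfl | rfl
      · exact h4.1
      · exact h4.2
    have h6 := dg9_le (β ++ [t]) (some i) (some 2)
    have h7 := IsBigO.mul (isBigO_refl (fun w : ℝ => w ^ (-1 : ℤ)) (𝓝[>] (0 : ℝ))) h5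
    have h8 : (fun w : ℝ => w ^ (D + 1 - dg9 (some i) (β ++ [t]))) =O[𝓝[>] (0 : ℝ)] fun w => w ^ 0 :=
      O_zpow (by push_cast; omega)
    have h9 := IsBigO.mul h8 h7
    refine IsBigO.congr' h9 ?_ ?_
    · filter_upwards [ev_pos] with w hw
      rw [← mul_assoc, ← mul_assoc, ← zpow_add₀ hw.ne', ← zpow_add₀ hw.ne']
      congr 2
      ring
    · filter_upwards [ev_pos] with w hw
      rw [_root_.zpow_neg_one]
      field_simp
  have hQ := Hd_one_sub_Q
  have hsum : ∀ w, F3 (β ++ [t]) w = (1 - w + w ^ 2) / w * (H3_run (β ++ [t]) (H3_e 2) w 2 +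
      (H3_run (β ++ [t]) (H3_e 0) w 0 + H3_run (β ++ [t]) (H3_e 1) w 1)) := by
    intro w
    rw [F3, H3_tr]
    ring
  have hsm : (fun w : ℝ => w ^ D * (H3_run (β ++ [t]) (H3_e 0) w 0 + H3_run (β ++ [t]) (H3_e 1) w 1))
      =O[𝓝[>] (0 : ℝ)] fun w => w ^ 4 := by
    refine ((hother 0 (by decide)).add (hother 1 (by decide))).congr_left fun w => ?_
    ring
  refine ⟨s, D + 1, ?_, hs1, fun hs => ?_, ?_⟩
  · have h1 := hWV.1
    have h2 := O_tendsto_zero (k := 4) (by norm_num) hsm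
    have h3 := hQ.tendsto.mul (h1.add h2)
    rw [add_zero, one_mul] at h3
    refine h3.congr' ?_
    filter_upwards [ev_pos] with w hw
    rw [hsum, zpow_one, zpow_add₀ hw.ne', zpow_one]
    ring
  · obtain ⟨c₁, c₂, c₃, r, hSI, hr, hL⟩ := hSV hs
    have h1 := hQ.mul (hSI.1.add_small hsm)
    have h2 := h1.congr (g := F3 (β ++ [t])) (Eventually.of_forall fun w => (hsum w).symm)
    rw [one_mul, add_comm (1 : ℤ) D] at h2
    refine ⟨_, _, _, h2, ?_⟩
    rw [Lf_mul, Lf_one_sub_Q, zero_add]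
    have h3 := (hA.hA r hr).2.2.1
    have h4 : (0 : ℝ) ≤ pot r := by exact_mod_cast h3
    have h5 : ((18 * (β.length : ℤ) + 24 : ℤ) : ℝ) ≤ (B : ℝ) := by exact_mod_cast hB
    simp only [List.length_append, List.length_cons, List.length_nil]
    push_cast at h5 hL ⊢
    linarith
  · have h1 := dg9_ge hyp (some 2)
    omega

end Pool.Agent.FB.W9
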