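import Pool.Agent.FB.W9.PST9
import Pool.Agent.FB.W8.H3P

/-!
# FB/W9: the first trace in part II, with `Hyp5` (adapted from FB/W8/H3P)
-/

set_option autoImplicit false

open Filter Asymptotics Topology Matrix Pool.Agent.FB.W8

namespace Pool.Agent.FB.W9

/-- the fold -/
theorem h3p_fold (hS : St_PS9) (β : List (ℤ × ℤ × ℤ)) (hβ : ∀ x ∈ β, Hyp5 x)
    (hp : ∀ x ∈ β, ¬ (0 < x.1 ∧ 0 < x.2.1)) (X : Fin 3) (D : ℤ) (s c : ℝ) (V : ℝ → Fin 3 → ℝ)
    (hV : PInv X D s c V) : ∃ s' c' : ℝ,
    PInv (h3pL X β) (D + dg X β) s' c' (fun w => Matrix.vecMul (V w) (β.map (B3 w)).prod) ∧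
    |s| ≤ |s'| ∧ c + β.length ≤ c' ∧ (X = 2 → (∀ x ∈ β, ty x = 2) → c' = c + 2 * β.length) := by
  induction β generalizing X D s c V with
  | nil =>
    refine ⟨s, c, ?_, le_refl _, by simp, fun _ _ => by simp⟩
    have h1 : (fun w => Matrix.vecMul (V w) (([] : List (ℤ × ℤ × ℤ)).map (B3 w)).prod) = V := by
      funext w
      rw [List.map_nil, List.prod_nil, Matrix.vecMul_one]
    rw [h1]
    show PInv X (D + 0) s c V
    rw [add_zero]
    exact hV
  | cons t β ih =>
    obtain ⟨s1, c1, h1, h2, h3, h4⟩ := hS X D s c V t (hβ t (List.mem_cons_self)) (hp t (List.mem_cons_self)) hV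
    obtain ⟨s2, c2, g1, g2, g3, g4⟩ := ih (fun x hx => hβ x (List.mem_cons_of_mem _ hx))
      (fun x hx => hp x (List.mem_cons_of_mem _ hx)) (ty t) (D + dl X t) s1 c1 (stp t V) h1
    refine ⟨s2, c2, ?_, h2.trans g2, ?_, ?_⟩
    · have e1 : (fun w => Matrix.vecMul (V w) ((t :: β).map (B3 w)).prod) =
          fun w => Matrix.vecMul (stp t V w) (β.map (B3 w)).prod := by
        funext w
        rw [List.map_cons, List.prod_cons, ← Matrix.vecMul_vecMul]
        rfl
      rw [e1]
      have e2 : D + dg X (t :: β) = D + dl X t + dg (ty t) β := by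
        show D + (dl X t + dg (ty t) β) = _
        ring
      rw [e2]
      exact g1
    · rw [List.length_cons]
      push_cast
      linarith
    · intro hX hall
      have e3 := h4 hX (hall t (List.mem_cons_self))
      have e4 := g4 (hall t (List.mem_cons_self)) fun x hx => hall x (List.mem_cons_of_mem _ hx)
      rw [e4, e3, List.length_cons]
      push_cast
      ring

/-- the unit vectors -/
theorem h3p_unit (X : Fin 3) : PInv X 0 1 0 (fun _ k => if k = X then 1 else 0) := by
  constructor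
  · refine IsBigO.of_bound 1 (Eventually.of_forall fun w => ?_)
    beta_reduce
    rw [zpow_zero, if_pos rfl]
    have h : (1 : ℝ) * 1 - 1 * (1 + 0 * w) = 0 := by ring
    rw [h, norm_zero, one_mul]
    exact norm_nonneg _
  · intro k hk
    refine IsBigO.of_bound 1 (Eventually.of_forall fun w => ?_)
    beta_reduce
    rw [if_neg hk, mul_zero, norm_zero, one_mul]
    exact norm_nonneg _

/-- the degree depends on the start only in the first step -/
theorem h3p_dg (X Y : Fin 3) (β : List (ℤ × ℤ × ℤ)) : dg X β ≤ dg Y β + 1 := by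
  cases β with
  | nil =>
    show (0 : ℤ) ≤ 0 + 1
    omega
  | cons t β =>
    show dl X t + dg (ty t) β ≤ dl Y t + dg (ty t) β + 1
    have h : dl X t ≤ dl Y t + 1 := by
      unfold dl
      split_ifs <;> omega
    omega

theorem h3p_entry (M : Matrix (Fin 3) (Fin 3) ℝ) (j : Fin 3) :
    Matrix.vecMul (fun k => if k = j then (1 : ℝ) else 0) M j = M j j := by
  have h : Matrix.vecMul (fun k => if k = j then (1 : ℝ) else 0) M j =
      ∑ i, (if i = j then (1 : ℝ) else 0) * M i j := rfl
  rw [h, Finset.sum_eq_single j]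
  · rw [if_pos rfl, one_mul]
  · intro i _ hi
    rw [if_neg hi, zero_mul]
  · intro hj
    exact absurd (Finset.mem_univ j) hj

theorem thm_H3P9 (hS : St_PS9) : St_H3P9 := by
  intro β hne hβ hp
  obtain ⟨X, hX⟩ : ∃ X, X = ty (β.getLast hne) := ⟨_, rfl⟩
  have hL : ∀ j, h3pL j β = X := fun j => by rw [hX]; exact h3pL_last j β hne
  -- the diagonal entries
  have key : ∀ j : Fin 3, ∃ s' c' : ℝ,
      PInv X (dg j β) s' c' (fun w => Matrix.vecMul (fun k => if k = j then (1 : ℝ) else 0)
        (β.map (B3 w)).prod) ∧ 1 ≤ |s'| ∧ (β.length : ℝ) ≤ c' ∧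
        (j = 2 → (∀ x ∈ β, ty x = 2) → c' = 2 * β.length) := by
    intro j
    obtain ⟨s', c', h1, h2, h3, h4⟩ := h3p_fold hS β hβ hp j 0 1 0 _ (h3p_unit j)
    rw [hL j, zero_add] at h1
    refine ⟨s', c', h1, by rw [abs_one] at h2; exact h2, by linarith, fun a b => ?_⟩
    rw [h4 a b, zero_add]
  obtain ⟨s, c, h1, h2, h3, h4⟩ := key X
  refine ⟨X, s, c, fun _ => hX, ?_, h2, h3, ?_⟩
  · have hoff : ∀ j, j ≠ X → (fun w : ℝ => w ^ (dg X β) * (β.map (B3 w)).prod j j)
        =O[𝓝[>] (0 : ℝ)] fun w => w ^ 2 := by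
      intro j hj
      obtain ⟨s', c', g1, -, -, -⟩ := key j
      have g2 := g1.2 j hj
      have g3 := pst_zmul (m := dg X β - dg j β) (k := 2) g2 (by
        have := h3p_dg j X β
        push_cast
        omega)
      refine g3.congr' ?_ EventuallyEq.rfl
      filter_upwards [pst_ev] with w hw
      rw [h3p_entry, ← mul_assoc, ← zpow_add₀ hw.1.ne', sub_add_cancel]
    have hmain : (fun w : ℝ => w ^ (dg X β) * (β.map (B3 w)).prod X X - s * (1 + c * w))
        =O[𝓝[>] (0 : ℝ)] fun w => w ^ 2 := by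
      have g1 := h1.1
      refine g1.congr_left fun w => ?_
      beta_reduce
      rw [h3p_entry]
    have hsum : (fun w : ℝ => ∑ j ∈ Finset.univ.erase X, w ^ (dg X β) * (β.map (B3 w)).prod j j)
        =O[𝓝[>] (0 : ℝ)] fun w => w ^ 2 := by
      have g := IsBigO.sum (s := Finset.univ.erase X)
        fun j hj => hoff j (Finset.ne_of_mem_erase hj)
      refine g.congr_left fun w => ?_
      rw [Finset.sum_apply]
    refine (hmain.add hsum).congr_left fun w => ?_
    have htr : w ^ (dg X β) * tr3 β w = ∑ j, w ^ (dg X β) * (β.map (B3 w)).prod j j := by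
      unfold tr3 Matrix.trace
      rw [Finset.mul_sum]
      rfl
    rw [htr, ← Finset.add_sum_erase _ _ (Finset.mem_univ X)]
    ring
  · intro hall
    have hX2 : X = 2 := by rw [hX]; exact hall _ (List.getLast_mem hne)
    exact h4 hX2 hall

end Pool.Agent.FB.W9
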