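import Pool.Agent.FB.W9.St2

/-!
# FB/W8, module P2: part II (helper57)
-/

set_option autoImplicit false

open Filter Asymptotics Topology Matrix LaurentPolynomial Pool.RU Pool.Agent.FB.W8

namespace Pool.Agent.FB.W9

/-! ### the degree -/

private theorem P2_ty2 (t : ℤ × ℤ × ℤ) (h : t.1 < 0 ∧ t.2.1 < 0) : ty t = 2 := by
  unfold ty
  rw [if_pos h]

private theorem P2_ty3 (t : ℤ × ℤ × ℤ) (h : ¬ (t.1 < 0 ∧ t.2.1 < 0)) : ty t ≠ 2 := by
  unfold ty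
  rw [if_neg h]
  split_ifs
  · decide
  · decide

private theorem P2_dl (X : Fin 3) (t : ℤ × ℤ × ℤ) (ht : Hyp5 t) (h : ¬ (0 < t.1 ∧ 0 < t.2.1)) :
    t.1 + t.2.1 + t.2.2 + 13 ≤ 2 * dl X t := by
  obtain ⟨h1, h2, h3⟩ := ht
  rw [le_abs] at h1 h2 h3
  by_cases hty : t.1 < 0 ∧ t.2.1 < 0
  · unfold dl
    rw [if_pos (P2_ty2 t hty), if_pos (P2_ty2 t hty)]
    split_ifs <;> omega
  · unfold dl
    rw [if_neg (P2_ty3 t hty), if_neg (P2_ty3 t hty)]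
    split_ifs <;> omega

private theorem P2_dg (β : List (ℤ × ℤ × ℤ)) (hH : ∀ x ∈ β, Hyp5 x)
    (hn : ∀ x ∈ β, ¬ (0 < x.1 ∧ 0 < x.2.1)) (X : Fin 3) :
    tot β + 13 * β.length ≤ 2 * dg X β := by
  induction β generalizing X with
  | nil => simp [tot, dg]
  | cons t β ih =>
    have h1 := ih (fun x hx => hH x (List.mem_cons_of_mem _ hx))
      (fun x hx => hn x (List.mem_cons_of_mem _ hx)) (ty t)
    have h2 := P2_dl X t (hH t List.mem_cons_self) (hn t List.mem_cons_self)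
    have h3 : tot (t :: β) = t.1 + t.2.1 + t.2.2 + tot β := by
      unfold tot
      rw [List.map_cons, List.sum_cons]
    have h4 : dg X (t :: β) = dl X t + dg (ty t) β := rfl
    rw [h3, h4, List.length_cons]
    push_cast
    linarith

/-! ### limits -/

private theorem P2_small : ∀ᶠ w : ℝ in 𝓝[>] (0 : ℝ), 0 < w ∧ w < 1 := by
  have h1 : ∀ᶠ w : ℝ in 𝓝[>] (0 : ℝ), w ∈ Set.Ioo (0 : ℝ) 1 :=
    Ioo_mem_nhdsGT one_pos
  exact h1

private theorem P2_id : Tendsto (fun w : ℝ => w) (𝓝[>] (0 : ℝ)) (𝓝 0) :=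
  tendsto_id.mono_left nhdsWithin_le_nhds

private theorem P2_neg (n : ℕ) (hn : n ≠ 0) :
    Tendsto (fun w : ℝ => w ^ (-(n : ℤ))) (𝓝[>] (0 : ℝ)) atTop := by
  have h1 : (fun w : ℝ => w ^ (-(n : ℤ))) = fun w => (w⁻¹) ^ n := by
    funext w
    rw [_root_.zpow_neg, zpow_natCast, inv_pow]
  rw [h1]
  exact (tendsto_pow_atTop hn).comp tendsto_inv_nhdsGT_zero

private theorem P2_pos (n : ℕ) (hn : n ≠ 0) :
    Tendsto (fun w : ℝ => w ^ (n : ℤ)) (𝓝[>] (0 : ℝ)) (𝓝 0) := by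
  have h1 : (fun w : ℝ => w ^ (n : ℤ)) = fun w => w ^ n := by
    funext w
    rw [zpow_natCast]
  rw [h1]
  have h2 := P2_id.pow n
  rwa [zero_pow hn] at h2

/-- an exponent with a nonzero limit is zero -/
private theorem P2_zero (n : ℤ) (L : ℝ) (hL : L ≠ 0)
    (h : Tendsto (fun w : ℝ => w ^ n) (𝓝[>] (0 : ℝ)) (𝓝 L)) : n = 0 := by
  rcases lt_trichotomy n 0 with h0 | h0 | h0
  · obtain ⟨k, hk⟩ := Int.exists_eq_neg_ofNat h0.le
    rw [hk] at h h0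
    exact absurd h (not_tendsto_nhds_of_tendsto_atTop (P2_neg k (by omega)) L)
  · exact h0
  · obtain ⟨k, hk⟩ := Int.eq_ofNat_of_zero_le h0.le
    rw [hk] at h h0
    exact absurd (tendsto_nhds_unique h (P2_pos k (by omega))) hL

/-- a bounded power has a nonnegative exponent -/
private theorem P2_bdd (n : ℤ) (C : ℝ)
    (h : ∀ᶠ w : ℝ in 𝓝[>] (0 : ℝ), (1 - w) ^ 2 * w ^ n ≤ C) : 0 ≤ n := by
  by_contra hcon
  push Not at hcon
  obtain ⟨k, hk⟩ := Int.exists_eq_neg_ofNat hcon.le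
  rw [hk] at h hcon
  have h1 := (P2_neg k (by omega)).eventually_gt_atTop (4 * |C|)
  have h2 : ∀ᶠ w : ℝ in 𝓝[>] (0 : ℝ), w ∈ Set.Ioo (0 : ℝ) (1 / 2) :=
    Ioo_mem_nhdsGT (by norm_num)
  obtain ⟨w, ⟨h3, h4⟩, h5⟩ := ((h.and h1).and h2).exists
  have h6 : (1 / 4 : ℝ) ≤ (1 - w) ^ 2 := by nlinarith [h5.1, h5.2]
  have h7 : 0 ≤ |C| := abs_nonneg C
  have h8 : C ≤ |C| := le_abs_self C
  have h9 : (1 / 4 : ℝ) * w ^ (-(k : ℤ)) ≤ (1 - w) ^ 2 * w ^ (-(k : ℤ)) :=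
    mul_le_mul_of_nonneg_right h6 (by linarith)
  linarith

/-! ### the three terms -/

/-- the first term -/
private theorem P2_E0 (w : ℝ) (h0 : 0 < w) (h1 : w < 1) :
    |Qw w ^ 2 - 3 * Qw w + 1| * w ^ 2 ≤ 5 := by
  have h2 : (Qw w ^ 2 - 3 * Qw w + 1) * w ^ 2 = (1 - w) ^ 4 + 3 * (1 - w) ^ 2 * w + w ^ 2 := by
    unfold Qw
    field_simp
    ring
  have h3 : |Qw w ^ 2 - 3 * Qw w + 1| * w ^ 2 = |(Qw w ^ 2 - 3 * Qw w + 1) * w ^ 2| := by
    rw [abs_mul, abs_of_nonneg (sq_nonneg w)]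
  rw [h3, h2]
  have a1 : 0 ≤ 1 - w := by linarith
  have a2 : 1 - w ≤ 1 := by linarith
  have a3 : (1 - w) ^ 4 ≤ 1 := pow_le_one₀ a1 a2
  have a4 : (1 - w) ^ 2 ≤ 1 := pow_le_one₀ a1 a2
  have a5 : w ^ 2 ≤ 1 := pow_le_one₀ h0.le h1.le
  have a6 : 3 * (1 - w) ^ 2 * w ≤ 3 := by nlinarith [sq_nonneg (1 - w)]
  rw [abs_of_nonneg (by positivity)]
  linarith

private theorem P2_E1 (k : ℤ) (hk : 4 ≤ k) :
    (fun w : ℝ => w ^ k * (Qw w ^ 2 - 3 * Qw w + 1)) =O[𝓝[>] (0 : ℝ)] fun w => w ^ 2 := by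
  refine IsBigO.of_bound 5 ?_
  filter_upwards [P2_small] with w hw
  obtain ⟨h0, h1⟩ := hw
  have h2 := P2_E0 w h0 h1
  have h3 : w ^ k ≤ w ^ 4 := by
    have h4 := zpow_le_zpow_right_of_le_one₀ h0 h1.le hk
    rw [← zpow_natCast w 4]
    exact h4
  have h5 : 0 ≤ w ^ k := by positivity
  rw [norm_mul, Real.norm_of_nonneg h5, Real.norm_eq_abs, Real.norm_of_nonneg (sq_nonneg w)]
  calc w ^ k * |Qw w ^ 2 - 3 * Qw w + 1| ≤ w ^ 4 * |Qw w ^ 2 - 3 * Qw w + 1| :=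
        mul_le_mul_of_nonneg_right h3 (abs_nonneg _)
    _ = |Qw w ^ 2 - 3 * Qw w + 1| * w ^ 2 * w ^ 2 := by ring
    _ ≤ 5 * w ^ 2 := mul_le_mul_of_nonneg_right h2 (sq_nonneg w)

/-- the second term -/
private theorem P2_F (β : List (ℤ × ℤ × ℤ)) (D : ℤ) (s c₁ : ℝ)
    (h : (fun w : ℝ => w ^ D * tr3 β w - s * (1 + c₁ * w)) =O[𝓝[>] (0 : ℝ)] fun w => w ^ 2) :
    (fun w : ℝ => w ^ (D + 1) * F3 β w - s * (1 + (c₁ - 1) * w)) =O[𝓝[>] (0 : ℝ)]
      fun w => w ^ 2 := by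
  obtain ⟨C, hC⟩ := isBigO_iff.1 h
  refine IsBigO.of_bound (|s| * (|c₁| + 1 + |c₁|) + 3 * |C|) ?_
  filter_upwards [P2_small, hC] with w hw hCw
  obtain ⟨h0, h1⟩ := hw
  rw [Real.norm_eq_abs, Real.norm_of_nonneg (sq_nonneg w)] at hCw ⊢
  set r : ℝ := w ^ D * tr3 β w - s * (1 + c₁ * w) with hr
  have h2 : w ^ (D + 1) * F3 β w - s * (1 + (c₁ - 1) * w) =
      s * ((1 - c₁) + c₁ * w) * w ^ 2 + (1 - w + w ^ 2) * r := by
    rw [hr]
    unfold F3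
    rw [zpow_add₀ h0.ne', zpow_one]
    field_simp
    ring
  have h3 : |r| ≤ |C| * w ^ 2 := hCw.trans (mul_le_mul_of_nonneg_right (le_abs_self C) (sq_nonneg w))
  have h4 : |(1 - w + w ^ 2) * r| ≤ 3 * (|C| * w ^ 2) := by
    rw [abs_mul]
    refine mul_le_mul ?_ h3 (abs_nonneg _) (by norm_num)
    rw [abs_le]
    constructor <;> nlinarith
  have h5 : |s * ((1 - c₁) + c₁ * w) * w ^ 2| ≤ |s| * (|c₁| + 1 + |c₁|) * w ^ 2 := by
    rw [abs_mul, abs_mul, abs_of_nonneg (sq_nonneg w)]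
    refine mul_le_mul_of_nonneg_right ?_ (sq_nonneg w)
    refine mul_le_mul_of_nonneg_left ?_ (abs_nonneg s)
    refine (abs_add_le _ _).trans (add_le_add ?_ ?_)
    · have := abs_sub (1 : ℝ) c₁
      rw [abs_one] at this
      linarith
    · rw [abs_mul, abs_of_nonneg h0.le]
      exact mul_le_of_le_one_right (abs_nonneg _) h1.le
  rw [h2]
  refine (abs_add_le _ _).trans ((add_le_add h5 h4).trans (le_of_eq ?_))
  ring

/-- the third term -/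
private theorem P2_T (β : List (ℤ × ℤ × ℤ)) (D : ℤ) (s2 : ℝ)
    (h : (fun w : ℝ => w ^ D * tr2 β w - s2) =O[𝓝[>] (0 : ℝ)] fun w => w) :
    (fun w : ℝ => w ^ (D + 1) * tr2 β w - s2 * w) =O[𝓝[>] (0 : ℝ)] fun w => w ^ 2 := by
  have h1 : (fun w : ℝ => (w ^ D * tr2 β w - s2) * w) =O[𝓝[>] (0 : ℝ)] fun w => w * w :=
    h.mul (isBigO_refl _ _)
  refine (h1.congr' ?_ ?_)
  · filter_upwards [P2_small] with w hw
    rw [zpow_add₀ hw.1.ne', zpow_one]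
    ring
  · filter_upwards with w
    ring

/-! ### the theorem -/

/-- large degree -/
private theorem P2_big (β : List (ℤ × ℤ × ℤ)) (D : ℤ) (s c₁ s2 : ℝ) (hD : 4 ≤ D + 1)
    (h3 : (fun w : ℝ => w ^ D * tr3 β w - s * (1 + c₁ * w)) =O[𝓝[>] (0 : ℝ)] fun w => w ^ 2)
    (h2 : (fun w : ℝ => w ^ D * tr2 β w - s2) =O[𝓝[>] (0 : ℝ)] fun w => w) (hs : 1 ≤ |s|)
    (hK : Key β) : c₁ = s2 / s := by
  have hs0 : s ≠ 0 := by
    rintro rfl
    rw [abs_zero] at hs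
    linarith
  set c' : ℝ := c₁ - 1 - s2 / s with hc'
  set G : ℝ → ℝ := fun w => w ^ (D + 1) *
    (Qw w ^ 2 - 3 * Qw w + 1 - F3 β w + tr2 β w) with hG
  set r : ℝ → ℝ := fun w => G w + s * (1 + c' * w) with hr
  have hrO : r =O[𝓝[>] (0 : ℝ)] fun w => w ^ 2 := by
    have e1 := ((P2_E1 (D + 1) hD).sub (P2_F β D s c₁ h3)).add (P2_T β D s2 h2)
    refine e1.congr_left fun w => ?_
    rw [hr, hG, hc']
    field_simp
    ring
  have hw2 : (fun w : ℝ => w ^ 2) =o[𝓝[>] (0 : ℝ)] fun w => w := by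
    have h4 : (fun w : ℝ => w ^ 2) =o[𝓝 (0 : ℝ)] fun w => w ^ 1 :=
      isLittleO_pow_pow (by norm_num)
    have h5 := h4.mono (nhdsWithin_le_nhds (s := Set.Ioi (0 : ℝ)))
    refine h5.congr_right fun w => ?_
    rw [pow_one]
  have hrw : Tendsto (fun w => r w / w) (𝓝[>] (0 : ℝ)) (𝓝 0) :=
    (hrO.trans_isLittleO hw2).tendsto_div_nhds_zero
  have hr0 : Tendsto r (𝓝[>] (0 : ℝ)) (𝓝 0) := by
    have h4 := hrw.mul P2_id
    rw [mul_zero] at h4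
    refine h4.congr' ?_
    filter_upwards [P2_small] with w hw
    rw [div_mul_cancel₀ _ hw.1.ne']
  have hGr : ∀ w, G w = r w - s * (1 + c' * w) := fun w => by
    rw [hr]
    ring
  have hGt : Tendsto G (𝓝[>] (0 : ℝ)) (𝓝 (-s)) := by
    have h4 : Tendsto (fun w : ℝ => r w - s * (1 + c' * w)) (𝓝[>] (0 : ℝ))
        (𝓝 (0 - s * (1 + c' * 0))) :=
      hr0.sub ((tendsto_const_nhds.add (P2_id.const_mul c')).const_mul s)
    have h5 : (0 : ℝ) - s * (1 + c' * 0) = -s := by ring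
    rw [h5] at h4
    exact h4.congr fun w => (hGr w).symm
  have hG2 : ∀ w : ℝ, 0 < w → w < 1 → G w ^ 2 = (1 - w) ^ 2 * w ^ (2 * (D + 1) + tot β - 1) := by
    intro w h0 h1
    rw [hG]
    show (w ^ (D + 1) * _) ^ 2 = _
    rw [mul_pow, hK w h0 h1]
    have h4 : (2 * (D + 1) + tot β - 1 : ℤ) = (D + 1) + (D + 1) + (tot β - 1) := by ring
    rw [h4, zpow_add₀ h0.ne' (D + 1 + (D + 1)) (tot β - 1), zpow_add₀ h0.ne' (D + 1) (D + 1)]
    ring
  have hone : Tendsto (fun w : ℝ => (1 - w) ^ 2) (𝓝[>] (0 : ℝ)) (𝓝 1) := by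
    have h4 : Tendsto (fun w : ℝ => (1 - w) ^ 2) (𝓝[>] (0 : ℝ)) (𝓝 ((1 - 0) ^ 2)) :=
      (tendsto_const_nhds.sub P2_id).pow 2
    rwa [sub_zero, one_pow] at h4
  have hpow : Tendsto (fun w : ℝ => w ^ (2 * (D + 1) + tot β - 1)) (𝓝[>] (0 : ℝ))
      (𝓝 (s ^ 2)) := by
    have h4 := (hGt.pow 2).div hone one_ne_zero
    rw [neg_sq, div_one] at h4
    refine h4.congr' ?_
    filter_upwards [P2_small] with w hw
    show G w ^ 2 / (1 - w) ^ 2 = _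
    rw [hG2 w hw.1 hw.2, mul_div_cancel_left₀]
    have : 0 < 1 - w := by linarith [hw.2]
    positivity
  have hn := P2_zero _ _ (pow_ne_zero 2 hs0) hpow
  rw [hn] at hpow hG2
  have hs1 : s ^ 2 = 1 := by
    have h4 : Tendsto (fun w : ℝ => w ^ (0 : ℤ)) (𝓝[>] (0 : ℝ)) (𝓝 1) := by
      simp only [zpow_zero]
      exact tendsto_const_nhds
    exact tendsto_nhds_unique hpow h4
  -- the first coefficient
  have hA : Tendsto (fun w : ℝ => (G w ^ 2 - 1) / w) (𝓝[>] (0 : ℝ)) (𝓝 (-2)) := by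
    have h4 : Tendsto (fun w : ℝ => -2 + w) (𝓝[>] (0 : ℝ)) (𝓝 (-2 + 0)) :=
      tendsto_const_nhds.add P2_id
    rw [add_zero] at h4
    refine h4.congr' ?_
    filter_upwards [P2_small] with w hw
    rw [hG2 w hw.1 hw.2, zpow_zero]
    have := hw.1.ne'
    field_simp
    ring
  have hB : Tendsto (fun w : ℝ => (G w ^ 2 - 1) / w) (𝓝[>] (0 : ℝ)) (𝓝 (2 * c')) := by
    have h4 : Tendsto (fun w : ℝ => 2 * c' + c' ^ 2 * w - 2 * s * (1 + c' * w) * (r w / w) +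
        r w * (r w / w)) (𝓝[>] (0 : ℝ))
        (𝓝 (2 * c' + c' ^ 2 * 0 - 2 * s * (1 + c' * 0) * 0 + 0 * 0)) :=
      ((tendsto_const_nhds.add (P2_id.const_mul (c' ^ 2))).sub
        (((tendsto_const_nhds.add (P2_id.const_mul c')).const_mul (2 * s)).mul hrw)).add
        (hr0.mul hrw)
    have h5 : 2 * c' + c' ^ 2 * 0 - 2 * s * (1 + c' * 0) * 0 + 0 * 0 = 2 * c' := by ring
    rw [h5] at h4
    refine h4.congr' ?_
    filter_upwards [P2_small] with w hw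
    have h6 := hw.1.ne'
    rw [hGr w]
    have h7 : (r w - s * (1 + c' * w)) ^ 2 - 1 =
        r w ^ 2 - 2 * s * (1 + c' * w) * r w + s ^ 2 * (1 + c' * w) ^ 2 - 1 := by ring
    rw [h7, hs1]
    field_simp
    ring
  have h4 := tendsto_nhds_unique hA hB
  have h5 : c' = -1 := by linarith
  rw [hc'] at h5
  linarith

/-- small degree -/
private theorem P2_low (β : List (ℤ × ℤ × ℤ)) (D : ℤ) (s c₁ s2 : ℝ) (hD : D + 1 ≤ 3)
    (h3 : (fun w : ℝ => w ^ D * tr3 β w - s * (1 + c₁ * w)) =O[𝓝[>] (0 : ℝ)] fun w => w ^ 2)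
    (h2 : (fun w : ℝ => w ^ D * tr2 β w - s2) =O[𝓝[>] (0 : ℝ)] fun w => w)
    (hK : Key β) : -5 ≤ tot β := by
  obtain ⟨C1, hC1⟩ := isBigO_iff.1 (P2_F β D s c₁ h3)
  obtain ⟨C2, hC2⟩ := isBigO_iff.1 (P2_T β D s2 h2)
  set B : ℝ := 5 + (|C1| + |s| * (1 + |c₁ - 1|)) + (|C2| + |s2|) with hB
  have hB0 : 0 ≤ B := by positivity
  have key : ∀ᶠ w : ℝ in 𝓝[>] (0 : ℝ), (1 - w) ^ 2 * w ^ (tot β + 5) ≤ B ^ 2 := by
    filter_upwards [P2_small, hC1, hC2] with w hw g1 g2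
    obtain ⟨h0, h1⟩ := hw
    rw [Real.norm_eq_abs, Real.norm_of_nonneg (sq_nonneg w)] at g1 g2
    have hw2 : w ^ 2 ≤ 1 := pow_le_one₀ h0.le h1.le
    have a1 : |w ^ (D + 1) * F3 β w| ≤ |C1| + |s| * (1 + |c₁ - 1|) := by
      have e1 : w ^ (D + 1) * F3 β w = (w ^ (D + 1) * F3 β w - s * (1 + (c₁ - 1) * w)) +
          s * (1 + (c₁ - 1) * w) := by ring
      rw [e1]
      refine (abs_add_le _ _).trans (add_le_add ?_ ?_)
      · refine g1.trans ?_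
        calc C1 * w ^ 2 ≤ |C1| * w ^ 2 :=
              mul_le_mul_of_nonneg_right (le_abs_self _) (sq_nonneg w)
          _ ≤ |C1| := mul_le_of_le_one_right (abs_nonneg _) hw2
      · rw [abs_mul]
        refine mul_le_mul_of_nonneg_left ?_ (abs_nonneg s)
        refine (abs_add_le _ _).trans ?_
        rw [abs_one, abs_mul, abs_of_nonneg h0.le]
        have := mul_le_of_le_one_right (abs_nonneg (c₁ - 1)) h1.le
        linarith
    have a2 : |w ^ (D + 1) * tr2 β w| ≤ |C2| + |s2| := by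
      have e1 : w ^ (D + 1) * tr2 β w = (w ^ (D + 1) * tr2 β w - s2 * w) + s2 * w := by ring
      rw [e1]
      refine (abs_add_le _ _).trans (add_le_add ?_ ?_)
      · refine g2.trans ?_
        calc C2 * w ^ 2 ≤ |C2| * w ^ 2 :=
              mul_le_mul_of_nonneg_right (le_abs_self _) (sq_nonneg w)
          _ ≤ |C2| := mul_le_of_le_one_right (abs_nonneg _) hw2
      · rw [abs_mul, abs_of_nonneg h0.le]
        exact mul_le_of_le_one_right (abs_nonneg _) h1.le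
    obtain ⟨k, hk⟩ := Int.eq_ofNat_of_zero_le (by omega : 0 ≤ 3 - (D + 1))
    have hk3 : ∀ x : ℝ, w ^ 3 * x = w ^ k * (w ^ (D + 1) * x) := by
      intro x
      have e1 : (w : ℝ) ^ 3 = w ^ k * w ^ (D + 1) := by
        rw [← zpow_natCast w k, ← zpow_natCast w 3, ← zpow_add₀ h0.ne']
        congr 1
        push_cast
        omega
      rw [e1]
      ring
    have hwk : 0 ≤ w ^ k ∧ w ^ k ≤ 1 := ⟨by positivity, pow_le_one₀ h0.le h1.le⟩
    have b1 : |w ^ 3 * F3 β w| ≤ |C1| + |s| * (1 + |c₁ - 1|) := by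
      rw [hk3, abs_mul, abs_of_nonneg hwk.1]
      exact (mul_le_of_le_one_left (abs_nonneg _) hwk.2).trans a1
    have b2 : |w ^ 3 * tr2 β w| ≤ |C2| + |s2| := by
      rw [hk3, abs_mul, abs_of_nonneg hwk.1]
      exact (mul_le_of_le_one_left (abs_nonneg _) hwk.2).trans a2
    have b0 : |w ^ 3 * (Qw w ^ 2 - 3 * Qw w + 1)| ≤ 5 := by
      have e1 := P2_E0 w h0 h1
      rw [abs_mul, abs_of_nonneg (by positivity)]
      calc w ^ 3 * |Qw w ^ 2 - 3 * Qw w + 1| = |Qw w ^ 2 - 3 * Qw w + 1| * w ^ 2 * w := by ring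
        _ ≤ |Qw w ^ 2 - 3 * Qw w + 1| * w ^ 2 :=
            mul_le_of_le_one_right (by positivity) h1.le
        _ ≤ 5 := e1
    have b3 : |w ^ 3 * (Qw w ^ 2 - 3 * Qw w + 1 - F3 β w + tr2 β w)| ≤ B := by
      have e1 : w ^ 3 * (Qw w ^ 2 - 3 * Qw w + 1 - F3 β w + tr2 β w) =
          w ^ 3 * (Qw w ^ 2 - 3 * Qw w + 1) + -(w ^ 3 * F3 β w) + w ^ 3 * tr2 β w := by ring
      rw [e1, hB]
      refine (abs_add_le _ _).trans (add_le_add ((abs_add_le _ _).trans (add_le_add b0 ?_)) b2)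
      rw [abs_neg]
      exact b1
    have e2 : (1 - w) ^ 2 * w ^ (tot β + 5) =
        (w ^ 3 * (Qw w ^ 2 - 3 * Qw w + 1 - F3 β w + tr2 β w)) ^ 2 := by
      rw [mul_pow, hK w h0 h1]
      have e3 : (tot β + 5 : ℤ) = 6 + (tot β - 1) := by ring
      rw [e3, zpow_add₀ h0.ne']
      have e4 : (w : ℝ) ^ (6 : ℤ) = (w ^ 3) ^ 2 := by
        rw [← pow_mul]
        norm_cast
      rw [e4]
      ring
    rw [e2, ← sq_abs]
    exact pow_le_pow_left₀ (abs_nonneg _) b3 2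
  have := P2_bdd _ _ key
  linarith

theorem thm_P29 (hH : St_H3P9) (hT : St_T2P9) : St_P29 := by
  intro β hne hHyp hneg _ hK
  obtain ⟨X, s, c₁, hX, h3, hs, hc1, hc2⟩ := hH β hne hHyp hneg
  obtain ⟨hT1, hT2⟩ := hT β hne hHyp hneg
  rw [← hX hne] at hT1 hT2
  have hm : 1 ≤ β.length := List.length_pos_of_ne_nil hne
  have hm' : (1 : ℝ) ≤ β.length := by exact_mod_cast hm
  have hdg := P2_dg β hHyp hneg X
  have hs0 : s ≠ 0 := by
    rintro rfl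
    rw [abs_zero] at hs
    linarith
  -- the second trace
  obtain ⟨s2, h2, hs2⟩ : ∃ s2 : ℝ,
      ((fun w : ℝ => w ^ (dg X β) * tr2 β w - s2) =O[𝓝[>] (0 : ℝ)] fun w => w) ∧
      c₁ ≠ s2 / s := by
    by_cases hall : ∀ x ∈ β, ty x = 2
    · obtain ⟨s2, hs2, h2⟩ := hT2 hall
      refine ⟨s2, h2, fun h => ?_⟩
      have h4 : |s2 / s| ≤ 1 := by
        rw [abs_div, div_le_one (by linarith)]
        linarith
      rw [← h, hc2 hall, abs_le] at h4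
      linarith
    · push Not at hall
      refine ⟨0, ?_, fun h => ?_⟩
      · simpa using hT1 hall
      · rw [zero_div] at h
        linarith
  rcases le_or_gt 4 (dg X β + 1) with hD | hD
  · exact hs2 (P2_big β _ s c₁ s2 hD h3 h2 hs hK)
  · have h4 := P2_low β _ s c₁ s2 (by omega) h3 h2 hK
    have h5 : (1 : ℤ) ≤ β.length := by exact_mod_cast hm
    omega

end Pool.Agent.FB.W9
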