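import Pool.Agent.FB.W9.St2
import Pool.Agent.FB.W8.PST

/-!
# FB/W9: the step of part II, with `Hyp5` (adapted from FB/W8/PST)
-/

set_option autoImplicit false

open Filter Asymptotics Topology Matrix Pool.Agent.FB.W8

namespace Pool.Agent.FB.W9

theorem pst_ty9 {t : ℤ × ℤ × ℤ} (h : Hyp5 t) (hp : ¬ (0 < t.1 ∧ 0 < t.2.1)) :
    (ty t = 2 ∧ ∀ k, k ≠ 2 → pste t k ≤ -5) ∨
    (ty t ≠ 2 ∧ pste t (ty t) = max t.1 t.2.1 ∧ 5 ≤ max t.1 t.2.1 ∧
      ∀ k, k ≠ 2 → k ≠ ty t → pste t k ≤ -5) := by
  have e0 : pste t 0 = t.1 := rfl
  have e1 : pste t 1 = t.2.1 := rfl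
  rcases le_abs.1 h.1 with ha | ha
  · rcases le_abs.1 h.2.1 with hc | hc
    · exact absurd ⟨by omega, by omega⟩ hp
    · right
      have hty : ty t = 0 := by
        unfold ty
        rw [if_neg (by omega), if_pos (by omega)]
      rw [hty, e0, max_eq_left (by omega)]
      refine ⟨by decide, rfl, ha, fun k h2 h0 => ?_⟩
      have hk : k = 1 := by
        fin_cases k
        · exact absurd rfl h0
        · rfl
        · exact absurd rfl h2
      rw [hk, e1]
      omega
  · rcases le_abs.1 h.2.1 with hc | hc
    · right
      have hty : ty t = 1 := by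
        unfold ty
        rw [if_neg (by omega), if_neg (by omega)]
      rw [hty, e1, max_eq_right (by omega)]
      refine ⟨by decide, rfl, hc, fun k h2 h0 => ?_⟩
      have hk : k = 0 := by
        fin_cases k
        · rfl
        · exact absurd rfl h0
        · exact absurd rfl h2
      rw [hk, e0]
      omega
    · left
      have hty : ty t = 2 := by
        unfold ty
        rw [if_pos (by omega)]
      refine ⟨hty, fun k h2 => ?_⟩
      fin_cases k
      · show pste t 0 ≤ -5
        rw [e0]
        omega
      · show pste t 1 ≤ -5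
        rw [e1]
        omega
      · exact absurd rfl h2

theorem thm_PS9 : St_PS9 := by
  intro X D s c₁ V t hH hp hI
  have hD : PstD X s c₁ (fun k w => w ^ D * V w k) := ⟨hI.1, hI.2⟩
  have e2 : pste t 2 = 0 := rfl
  rcases le_abs.1 hH.2.2 with hb | hb
  · -- `b > 0`
    have hoff : ∀ (δ : ℤ) (k : Fin 3), 4 ≤ δ - pste t k - t.2.2 → (fun w => w ^ (δ - pste t k) *
        pstR (fun k w => w ^ D * V w k) (-t.2.2) k w) =O[𝓝[>] (0 : ℝ)] fun w => w ^ 4 := by
      intro δ k hk
      have h1 := pst_zmul (m := δ - pste t k - t.2.2) (k := 4) (pst_Pb hD hb k)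
        (by push_cast; omega)
      refine h1.congr' ?_ EventuallyEq.rfl
      filter_upwards [pst_ev] with w hw
      rw [← mul_assoc, ← zpow_add₀ hw.1.ne']
      congr 2
      ring
    rcases pst_ty9 hH hp with ⟨hty, he⟩ | ⟨hty, heY, h5, he⟩
    · have hdl : dl X t = t.2.2 := by
        unfold dl
        rw [if_pos (by omega), if_pos hty]
      refine ⟨s, c₁ + 2, ?_, le_refl _, by linarith, fun _ _ => rfl⟩
      rw [hdl, hty]
      refine pst_fin t V D _ 2 _ _ ?_ fun k hk => hoff _ k ?_
      · have h1 := pst_P2 hD hb
        rw [e2, sub_zero]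
        exact h1
      · have := he k hk
        omega
    · have hdl : dl X t = t.2.2 + max t.1 t.2.1 - 1 := by
        unfold dl
        rw [if_pos (by omega), if_neg hty]
      refine ⟨-s, c₁ + 2, ?_, by rw [abs_neg], by linarith, fun _ h => absurd h hty⟩
      rw [hdl]
      refine pst_fin t V D _ (ty t) _ _ ?_ fun k hk => hoff _ k ?_
      · have h1 := pst_Pk hD hb hty
        refine h1.congr ?_
        filter_upwards [pst_ev] with w hw
        rw [heY, ← mul_assoc, ← zpow_add₀ hw.1.ne']
        congr 2
        ring
      · by_cases h2 : k = 2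
        · rw [h2, e2]
          omega
        · have := he k h2 hk
          omega
  · -- `b < 0`
    have hn : 5 ≤ -t.2.2 := hb
    have hoff : ∀ (δ : ℤ) (k : Fin 3), 4 ≤ δ - pste t k → (fun w => w ^ (δ - pste t k) *
        pstR (fun k w => w ^ D * V w k) (-t.2.2) k w) =O[𝓝[>] (0 : ℝ)] fun w => w ^ 4 := by
      intro δ k hk
      exact pst_zmul (pst_Rb hD (by omega) k) (by push_cast; omega)
    rcases pst_ty9 hH hp with ⟨hty, he⟩ | ⟨hty, heY, h5, he⟩
    · by_cases hX : X = 2
      · subst hX
        have hdl : dl 2 t = -1 := by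
          unfold dl
          rw [if_neg (by omega), if_pos hty, if_pos rfl]
        refine ⟨-2 * s, c₁ + 2, ?_, ?_, by linarith, fun _ _ => rfl⟩
        · rw [hdl, hty]
          refine pst_fin t V D _ 2 _ _ ?_ fun k hk => hoff _ k ?_
          · have h1 := pst_M22 hD hn
            rw [e2, sub_zero]
            exact h1
          · have := he k hk
            omega
        · rw [abs_mul]
          have h1 : |(-2 : ℝ)| = 2 := by norm_num
          rw [h1]
          have := abs_nonneg s
          linarith
      · have hdl : dl X t = 0 := by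
          unfold dl
          rw [if_neg (by omega), if_pos hty, if_neg hX]
        refine ⟨-s, c₁ + 2, ?_, by rw [abs_neg], by linarith, fun h => absurd h hX⟩
        rw [hdl, hty]
        refine pst_fin t V D _ 2 _ _ ?_ fun k hk => hoff _ k ?_
        · have h1 := pst_M2 hD hX hn
          rw [e2, sub_zero]
          refine h1.congr (Eventually.of_forall fun w => ?_)
          beta_reduce
          rw [zpow_zero, one_mul]
        · have := he k hk
          omega
    · by_cases hX : X = ty t
      · have hdl : dl X t = max t.1 t.2.1 := by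
          unfold dl
          rw [if_neg (by omega), if_neg hty, if_pos hX]
        refine ⟨s, c₁ + 1, ?_, le_refl _, le_refl _, fun _ h => absurd h hty⟩
        rw [hdl, ← hX]
        have hX2 : X ≠ 2 := by rw [hX]; exact hty
        refine pst_fin t V D _ X _ _ ?_ fun k hk => hoff _ k ?_
        · have h1 := pst_MX hD hX2 hn
          rw [hX, heY, ← hX, sub_self]
          refine h1.congr (Eventually.of_forall fun w => ?_)
          beta_reduce
          rw [zpow_zero, one_mul]
        · by_cases h2 : k = 2
          · rw [h2, e2]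
            omega
          · have := he k h2 (by rw [← hX]; exact hk)
            omega
      · have hdl : dl X t = max t.1 t.2.1 - 1 := by
          unfold dl
          rw [if_neg (by omega), if_neg hty, if_neg hX]
        refine ⟨s, c₁ + 2, ?_, le_refl _, by linarith, fun _ h => absurd h hty⟩
        rw [hdl]
        refine pst_fin t V D _ (ty t) _ _ ?_ fun k hk => hoff _ k ?_
        · have h1 := pst_Mk hD hty (Ne.symm hX) hn
          rw [heY]
          have h2 : max t.1 t.2.1 - 1 - max t.1 t.2.1 = -1 := by ring
          rw [h2]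
          exact h1
        · by_cases h2 : k = 2
          · rw [h2, e2]
            omega
          · have := he k h2 hk
            omega

end Pool.Agent.FB.W9
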