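import Pool.Agent.FB.W8.WR
import Pool.Agent.FB.W8.KEY
import Pool.Agent.FB.W8.LNK
import Pool.Agent.FB.W8.T2
import Pool.Agent.FB.W9.AUT9
import Pool.Agent.FB.W9.H39
import Pool.Agent.FB.W9.P19
import Pool.Agent.FB.W9.PST9
import Pool.Agent.FB.W9.H3P9
import Pool.Agent.FB.W9.T2P9
import Pool.Agent.FB.W9.P29

/-!
# FB/W9: the theorem from the modules
-/

set_option autoImplicit false

open Filter Asymptotics Topology Matrix LaurentPolynomial Pool.RU Pool.Agent.FB.W8

namespace Pool.Agent.FB.W9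

private theorem ALL_hyp {t : ℤ × ℤ × ℤ} (h : Hyp5 t) : Hyp5 (-t.1, -t.2.1, -t.2.2) := by
  obtain ⟨h1, h2, h3⟩ := h
  refine ⟨?_, ?_, ?_⟩
  · simpa only [abs_neg] using h1
  · simpa only [abs_neg] using h2
  · simpa only [abs_neg] using h3

private theorem ALL_tot (β : List (ℤ × ℤ × ℤ)) : tot (mir β) = -tot β := by
  induction β with
  | nil => simp [tot, mir]
  | cons t β ih =>
    simp only [tot, mir, List.map_cons, List.sum_cons] at ih ⊢
    rw [ih]
    ring

private theorem ALL_mir (β : List (ℤ × ℤ × ℤ)) : mir (mir β) = β := by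
  simp only [mir, List.map_map]
  refine (List.map_congr_left fun t _ => ?_).trans (List.map_id β)
  simp

private theorem ALL_nt {t t' : ℤ × ℤ × ℤ} (h : NT t t') : NTp t t' := by
  intro ha hd
  rcases h hd with h | h
  · exact Or.inl (pos_of_mul_pos_right h ha.le)
  · exact Or.inr (pos_of_mul_pos_right h ha.le)

private theorem ALL_ntm {t t' : ℤ × ℤ × ℤ} (h : NT (-t.1, -t.2.1, -t.2.2) (-t'.1, -t'.2.1, -t'.2.2)) :
    NT t t' := by
  intro hd
  have e : |(-t.1) - (-t.2.1)| ≤ 1 := by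
    have : -t.1 - -t.2.1 = -(t.1 - t.2.1) := by ring
    rw [this, abs_neg]
    exact hd
  rcases h e with h | h
  · left
    have : -t.1 * -t.2.2 = t.1 * t.2.2 := by ring
    simpa only [this] using h
  · right
    have : -t.1 * -t'.2.2 = t.1 * t'.2.2 := by ring
    simpa only [this] using h

/-- **the theorem for knots** -/
theorem thm_W9K (hK : St_Key) (h1 : St_P19) (h2 : St_P29) (β : List (ℤ × ℤ × ℤ)) (hne : β ≠ [])
    (hyp : ∀ x ∈ β, Hyp5 x) (hnt : ∀ t t' R, β ~r t :: t' :: R → NT t t')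
    (o : Tip 3 (0 + (word β).length) → Bool) (ho : (closure β).IsOrientation o) (hk : (closure β).IsKnot) :
    (closure β).normalized o ≠ 1 := by
  intro hf
  obtain ⟨k1, k2⟩ := hK β o ho hk hf
  have hypm : ∀ x ∈ mir β, Hyp5 x := by
    intro x hx
    obtain ⟨t, ht, rfl⟩ := List.mem_map.1 hx
    exact ALL_hyp (hyp t ht)
  have hnem : mir β ≠ [] := by
    simpa [mir] using hne
  have hntm : ∀ t t' R, mir β ~r t :: t' :: R → NTp t t' := by
    intro t t' R h
    have h' : β ~r mir (t :: t' :: R) := by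
      have := h.map (fun t : ℤ × ℤ × ℤ => ((-t.1, -t.2.1, -t.2.2) : ℤ × ℤ × ℤ))
      have e : List.map (fun t : ℤ × ℤ × ℤ => ((-t.1, -t.2.1, -t.2.2) : ℤ × ℤ × ℤ)) (mir β) = β := ALL_mir β
      rw [e] at this
      exact this
    exact ALL_nt (ALL_ntm (hnt _ _ _ h'))
  rcases le_total 0 (tot β) with ht | ht
  · by_cases hc : ∃ t ∈ β, t.1 < 0 ∧ t.2.1 < 0
    · exact h1 β hyp (fun t t' R h => ALL_nt (hnt t t' R h)) hc ht k1
    · refine h2 (mir β) hnem hypm ?_ (by rw [ALL_tot]; linarith) k2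
      intro x hx
      obtain ⟨t, ht', rfl⟩ := List.mem_map.1 hx
      rintro ⟨g1, g2⟩
      exact hc ⟨t, ht', by simpa using g1, by simpa using g2⟩
  · by_cases hc : ∃ t ∈ β, 0 < t.1 ∧ 0 < t.2.1
    · refine h1 (mir β) hypm hntm ?_ (by rw [ALL_tot]; linarith) k2
      obtain ⟨t, ht', g1, g2⟩ := hc
      exact ⟨_, List.mem_map.2 ⟨t, ht', rfl⟩, by simpa using g1, by simpa using g2⟩
    · refine h2 β hne hyp ?_ ht k1
      intro x hx h
      exact hc ⟨x, hx, h⟩

/-- **closed 4-braids with all exponents `≥ 5`, near ties only next to an exponent of the same sign** -/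
theorem main : St_W9 := fun β hne hyp hnt o ho hf =>
  thm_W9K (thm_Key thm_Wr) (thm_P19 (thm_H39 thm_A9) thm_T2) (thm_P29 (thm_H3P9 thm_PS9) thm_T2P9) β hne hyp hnt
    o ho (thm_Lk β o ho hf) hf

end Pool.Agent.FB.W9
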