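import Pool.Agent.FB.W9.St
import Pool.Agent.FB.W8.SSTE
import Pool.Agent.FB.W8.WST

/-!
# FB/W9, module ES: the steps with `b > 0`, and the sum of the coordinates
-/

set_option autoImplicit false

open Filter Asymptotics Topology Matrix LaurentPolynomial Pool.RU Pool.Agent.FB.W8

namespace Pool.Agent.FB.W9

/-! ### translations -/

theorem hd_iff {f : ℝ → ℝ} {s : ℝ} {D : ℤ} {c₁ c₂ c₃ : ℝ} :
    Hd f s D c₁ c₂ c₃ ↔ SSTF_T (fun w => w ^ D * f w) s (s * c₁) (s * c₂) (s * c₃) := by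
  constructor
  · intro h
    exact IsBigO.congr_left h fun w => by ring
  · intro h
    exact IsBigO.congr_left h fun w => by ring

/-- bounded in degree `D` -/
def Bd (D : ℤ) (f : ℝ → ℝ) : Prop := (fun w : ℝ => w ^ D * f w) =O[𝓝[>] (0 : ℝ)] fun w => w ^ 0

theorem Bd.of_tendsto {D : ℤ} {f : ℝ → ℝ} {a : ℝ} (h : Tendsto (fun w : ℝ => w ^ D * f w) (𝓝[>] 0) (𝓝 a)) :
    Bd D f := O_of_tendsto h

/-- a power times a bounded function -/
theorem Bd.O {D : ℤ} {f : ℝ → ℝ} (h : Bd D f) (n : ℤ) (k : ℕ) (hn : (k : ℤ) ≤ n) :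
    (fun w : ℝ => w ^ n * (w ^ D * f w)) =O[𝓝[>] (0 : ℝ)] fun w => w ^ k := by
  have h1 := O_mul (O_zpow hn) h
  simpa only [add_zero] using h1

theorem Bd.tz {D : ℤ} {f : ℝ → ℝ} (h : Bd D f) (n : ℤ) (hn : 1 ≤ n) :
    Tendsto (fun w : ℝ => w ^ n * (w ^ D * f w)) (𝓝[>] 0) (𝓝 0) :=
  O_tendsto_zero (k := 1) le_rfl (h.O n 1 (by push_cast; omega))

/-- a big power times a tending function -/
theorem O_of_td {g : ℝ → ℝ} {a : ℝ} (h : Tendsto g (𝓝[>] (0 : ℝ)) (𝓝 a)) (n : ℤ) (k : ℕ) (hn : (k : ℤ) ≤ n) :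
    (fun w : ℝ => w ^ n * g w) =O[𝓝[>] (0 : ℝ)] fun w => w ^ k := by
  have h1 := O_mul (O_zpow hn) (O_of_tendsto h)
  simpa only [add_zero] using h1

theorem O_of_T {g : ℝ → ℝ} {a b c d : ℝ} (h : SSTF_T g a b c d) (n : ℤ) (k : ℕ) (hn : (k : ℤ) ≤ n) :
    (fun w : ℝ => w ^ n * g w) =O[𝓝[>] (0 : ℝ)] fun w => w ^ k := by
  have h1 := (SSTF_zpow n k hn).mul h.bdd
  simpa only [mul_one] using h1

/-! ### the sum -/

theorem G2S {S : Finset (ℤ × ℤ × ℤ × ℤ)} (hA : Aut S) {X : Fin 3} {D B : ℤ} {V : ℝ → Fin 3 → ℝ}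
    (h : H3_Good S X D B V) : SumGood D B V := by
  obtain ⟨s, κ, hs, hW, hS⟩ := h
  refine ⟨s, hs, WST_S hW, fun k => O_of_tendsto (WST_V hW k), fun h1 => ?_⟩
  obtain ⟨c₁, c₂, c₃, r, hI, hr, hB⟩ := hS h1
  have h2 := (SSTE_in hI).1
  refine ⟨c₁ + r.1, c₂ + c₁ * r.1 + r.2.1, c₃ + c₂ * r.1 + c₁ * r.2.1 + r.2.2.1, ?_, ?_⟩
  · rw [hd_iff]
    refine h2.congr fun w _ _ => ?_
    unfold sm
    ring
  · have h3 : ((0 : ℤ) : ℝ) ≤ ((pot r + cf r : ℤ) : ℝ) := Int.cast_le.2 (hA.hA r hr).2.1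
    have h4 : Lf (c₁ + r.1) (c₂ + c₁ * r.1 + r.2.1) (c₃ + c₂ * r.1 + c₁ * r.2.1 + r.2.2.1) =
        Lf c₁ c₂ c₃ + cf r := by
      unfold Lf cf
      push_cast
      ring
    rw [h4]
    push_cast at h3
    linarith

theorem T2S {D B : ℤ} {V : ℝ → Fin 3 → ℝ} (h : TieGood D B V) : SumGood D B V := by
  obtain ⟨s, hs, h0, h1, h2, -⟩ := h
  have t1 := O_tendsto_zero (by norm_num) h1
  have t2 := O_tendsto_zero (by norm_num) h2
  have hs2 : |2 * s| = 2 * |s| := by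
    rw [abs_mul]
    norm_num
  refine ⟨2 * s, by rw [hs2]; linarith, ?_, ?_, fun h3 => ?_⟩
  · have h3 := ((h0.add h0).add t1).add t2
    rw [add_zero, add_zero, ← two_mul] at h3
    refine h3.congr fun w => ?_
    unfold sm
    ring
  · intro k
    have h3 : Tendsto (fun w : ℝ => w ^ D * V w 1) (𝓝[>] 0) (𝓝 s) := by
      have h4 := h0.add t1
      rw [add_zero] at h4
      refine h4.congr fun w => ?_
      ring
    fin_cases k
    · exact O_of_tendsto h0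
    · exact O_of_tendsto h3
    · exact O_of_tendsto t2
  · rw [hs2] at h3
    linarith

/-! ### `b > 0` -/

section
variable {D B : ℤ} {V : ℝ → Fin 3 → ℝ} {s : ℝ} {t : ℤ × ℤ × ℤ}

/-- the bracket of the coordinate `k`: `w^b x_k + (1 - w^b) m_k S` -/
noncomputable def br (D : ℤ) (V : ℝ → Fin 3 → ℝ) (b : ℤ) (k : Fin 3) (w : ℝ) : ℝ :=
  w ^ b * (w ^ D * V w k) + (1 - w ^ b) * SSTF_m w k * (w ^ D * V w 0 + w ^ D * V w 1 + w ^ D * V w 2)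

theorem td_sm (h : Tendsto (fun w : ℝ => w ^ D * sm V w) (𝓝[>] 0) (𝓝 s)) :
    Tendsto (fun w : ℝ => w ^ D * V w 0 + w ^ D * V w 1 + w ^ D * V w 2) (𝓝[>] 0) (𝓝 s) := by
  refine h.congr fun w => ?_
  unfold sm
  ring

theorem td_one {b : ℤ} (hb : 5 ≤ b) : Tendsto (fun w : ℝ => 1 - w ^ b) (𝓝[>] (0 : ℝ)) (𝓝 1) := by
  have h := (WST_zpow (n := b) (by omega)).const_sub 1
  rwa [sub_zero] at h

theorem br_two {b : ℤ} (hb : 5 ≤ b) (h : Tendsto (fun w : ℝ => w ^ D * sm V w) (𝓝[>] 0) (𝓝 s))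
    (hx : ∀ k, (fun w : ℝ => w ^ D * V w k) =O[𝓝[>] (0 : ℝ)] fun w => w ^ 0) :
    Tendsto (br D V b 2) (𝓝[>] 0) (𝓝 s) := by
  have h1 : Tendsto (fun w : ℝ => 1 - 2 * u w) (𝓝[>] (0 : ℝ)) (𝓝 1) := by
    have := (tendsto_u.const_mul 2).const_sub 1
    simpa using this
  have h2 := (Bd.tz (hx 2) b (by omega)).add (((td_one hb).mul h1).mul (td_sm h))
  rw [zero_add, one_mul, one_mul] at h2
  exact h2

/-- divided by `w` -/
theorem br_k {b : ℤ} (hb : 5 ≤ b) (h : Tendsto (fun w : ℝ => w ^ D * sm V w) (𝓝[>] 0) (𝓝 s))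
    (hx : ∀ k, (fun w : ℝ => w ^ D * V w k) =O[𝓝[>] (0 : ℝ)] fun w => w ^ 0) {k : Fin 3} (hk : k ≠ 2) :
    Tendsto (fun w => w ^ (-1 : ℤ) * br D V b k w) (𝓝[>] 0) (𝓝 (-s)) := by
  have h2 := (Bd.tz (hx k) (b - 1) (by omega)).add (((td_one hb).mul tendsto_u_div).mul (td_sm h))
  rw [zero_add, one_mul, neg_one_mul] at h2
  refine h2.congr' ?_
  filter_upwards [ev_pos] with w hw
  unfold br
  rw [SSTF_mu hk, zpow_sub_one₀ hw.ne', _root_.zpow_neg_one]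
  ring

/-- the bracket is bounded -/
theorem br_bd {b : ℤ} (hb : 5 ≤ b) (h : Tendsto (fun w : ℝ => w ^ D * sm V w) (𝓝[>] 0) (𝓝 s))
    (hx : ∀ k, (fun w : ℝ => w ^ D * V w k) =O[𝓝[>] (0 : ℝ)] fun w => w ^ 0) (k : Fin 3) :
    ∃ a, Tendsto (br D V b k) (𝓝[>] 0) (𝓝 a) := by
  by_cases hk : k = 2
  · rw [hk]
    exact ⟨_, br_two hb h hx⟩
  · have h1 := (tendsto_w).mul (br_k hb h hx hk)
    refine ⟨_, h1.congr' ?_⟩
    filter_upwards [ev_pos] with w hw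
    rw [← mul_assoc, _root_.zpow_neg_one, mul_inv_cancel₀ hw.ne', one_mul]

theorem br_new (t : ℤ × ℤ × ℤ) (V : ℝ → Fin 3 → ℝ) (D n : ℤ) (w : ℝ) (hw : 0 < w) (k : Fin 3) :
    w ^ (D + n) * stp t V w k = w ^ (n - t.2.2 - SSTF_ex t k) * br D V t.2.2 k w :=
  SSTE_new t V D n w hw k

/-- four coefficients -/
theorem brT_two {b : ℤ} (hb : 5 ≤ b) {c₁ c₂ c₃ : ℝ} (h : Hd (sm V) s D c₁ c₂ c₃)
    (hx : ∀ k, (fun w : ℝ => w ^ D * V w k) =O[𝓝[>] (0 : ℝ)] fun w => w ^ 0) :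
    SSTF_T (br D V b 2) s (s * (c₁ + 2)) (s * (c₂ + 2 * c₁ + 4)) (s * (c₃ + 2 * c₂ + 4 * c₁ + 6)) := by
  have h1 := hd_iff.1 h
  refine (((SSTF_T.zero (Bd.O (hx 2) b 4 (by push_cast; omega))).add
    (((SSTE_one hb).mul SSTF_u2).mul h1)).congr fun w _ _ => ?_).coef ?_ ?_ ?_ ?_
  · unfold br sm
    rw [show SSTF_m w 2 = 1 - 2 * u w from rfl]
    ring
  all_goals ring

theorem brT_k {b : ℤ} (hb : 5 ≤ b) {c₁ c₂ c₃ : ℝ} (h : Hd (sm V) s D c₁ c₂ c₃)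
    (hx : ∀ k, (fun w : ℝ => w ^ D * V w k) =O[𝓝[>] (0 : ℝ)] fun w => w ^ 0) {k : Fin 3} (hk : k ≠ 2) :
    SSTF_T (fun w => w ^ (-1 : ℤ) * br D V b k w) (-s) (-s * (2 + c₁)) (-s * (3 + 2 * c₁ + c₂))
      (-s * (4 + 3 * c₁ + 2 * c₂ + c₃)) := by
  have h1 := hd_iff.1 h
  refine (((SSTF_T.zero (Bd.O (hx k) (b - 1) 4 (by push_cast; omega))).add
    (((SSTE_one hb).mul ((SSTF_poly (-1) 0 0 0).mul SSTF_v)).mul h1)).congr fun w hw hw1 => ?_).coef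
    ?_ ?_ ?_ ?_
  · unfold br sm
    rw [SSTF_mu hk, zpow_sub_one₀ hw.ne', _root_.zpow_neg_one]
    unfold u
    have h1 : 1 - w ≠ 0 := by linarith
    have h2 := hw.ne'
    field_simp
    ring
  all_goals ring

/-! ### the three kinds of blocks -/

/-- a block of type `2` -/
theorem E_two {S : Finset (ℤ × ℤ × ℤ × ℤ)} (hA : Aut S) (h : SumGood D B V) (hb : 5 ≤ t.2.2)
    (ha : t.1 ≤ -5) (hc : t.2.1 ≤ -5) : H3_Good S 2 (D + t.2.2) (B + 24) (stp t V) := by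
  obtain ⟨s, hs, hS, hx, hT⟩ := h
  have hO : ∀ k : Fin 3, k ≠ 2 → SSTF_ex t k ≤ -5 →
      (fun w : ℝ => w ^ (D + t.2.2) * stp t V w k) =O[𝓝[>] (0 : ℝ)] fun w => w ^ 5 := by
    intro k _ hk5
    obtain ⟨a, h1⟩ := br_bd hb hS hx k
    refine IsBigO.congr' (O_of_td h1 (-SSTF_ex t k) 5 (by push_cast; omega)) ?_ EventuallyEq.rfl
    filter_upwards [ev_pos] with w hw
    rw [br_new t V D _ w hw, sub_self, zero_sub]
  have h20 := hO 0 (by decide) ha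
  have h21 := hO 1 (by decide) hc
  have h22 : Tendsto (fun w : ℝ => w ^ (D + t.2.2) * stp t V w 2) (𝓝[>] 0) (𝓝 s) := by
    refine (br_two hb hS hx).congr' ?_
    filter_upwards [ev_pos] with w hw
    rw [br_new t V D _ w hw, show SSTF_ex t 2 = 0 from rfl, sub_self, sub_zero, zpow_zero, one_mul]
  refine ⟨s, 0, hs, ⟨h22, le_rfl, fun _ => ⟨h20, h21⟩, fun h => absurd rfl h⟩, fun h1 => ?_⟩
  obtain ⟨c₁, c₂, c₃, hd, hB⟩ := hT h1
  refine ⟨c₁ + 2, c₂ + 2 * c₁ + 4, c₃ + 2 * c₂ + 4 * c₁ + 6, (0, 0, 0, 0), ?_, hA.h0, ?_⟩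
  · refine SSTF_build2 _ _ _ _ _ _ ((brT_two hb hd hx).congr fun w hw _ => ?_) h20 h21
    rw [br_new t V D _ w hw, show SSTF_ex t 2 = 0 from rfl, sub_self, sub_zero, zpow_zero, one_mul]
  · have h4 : Lf (c₁ + 2) (c₂ + 2 * c₁ + 4) (c₃ + 2 * c₂ + 4 * c₁ + 6) = Lf c₁ c₂ c₃ + 24 := by
      unfold Lf
      ring
    rw [h4, hA.hp0]
    push_cast
    linarith

/-- the exponents of a block which is not of type `2` and not a tie -/
structure Ex (t : ℤ × ℤ × ℤ) (i : Fin 3) (M e : ℤ) : Prop where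
  i2 : i ≠ 2
  ex : SSTF_ex t i = M
  M5 : 5 ≤ M
  exs : SSTF_ex t (sw i) = M - e
  e1 : 1 ≤ e

theorem E_i {S : Finset (ℤ × ℤ × ℤ × ℤ)} (hA : Aut S) (h : SumGood D B V) (hb : 5 ≤ t.2.2)
    {i : Fin 3} {M e : ℤ} (hE : Ex t i M e) :
    H3_Good S i (D + (t.2.2 + M - 1)) (B + 18) (stp t V) := by
  obtain ⟨s, hs, hS, hx, hT⟩ := h
  obtain ⟨hi, hM, hM5, hes, he1⟩ := hE
  have gi : sw i ≠ 2 := (SSTF_sw hi).1
  have n1 : ∀ w : ℝ, 0 < w → w ^ (D + (t.2.2 + M - 1)) * stp t V w i = w ^ (-1 : ℤ) * br D V t.2.2 i w := by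
    intro w hw
    rw [br_new t V D _ w hw, hM]
    congr 2
    ring
  have n2 : ∀ w : ℝ, 0 < w → w ^ (D + (t.2.2 + M - 1) - 1) * stp t V w (sw i) =
      w ^ (e - 1) * (w ^ (-1 : ℤ) * br D V t.2.2 (sw i) w) := by
    intro w hw
    rw [add_sub_assoc, br_new t V D _ w hw, hes, ← mul_assoc, ← zpow_add₀ hw.ne']
    congr 2
    ring
  have n3 : (fun w : ℝ => w ^ (D + (t.2.2 + M - 1)) * stp t V w 2) =O[𝓝[>] (0 : ℝ)] fun w => w ^ 4 := by
    refine IsBigO.congr' (O_of_td (br_two hb hS hx) (M - 1) 4 (by push_cast; omega)) ?_ EventuallyEq.rfl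
    filter_upwards [ev_pos] with w hw
    rw [br_new t V D _ w hw, show SSTF_ex t 2 = 0 from rfl]
    congr 2
    ring
  have t1 : Tendsto (fun w : ℝ => w ^ (D + (t.2.2 + M - 1)) * stp t V w i) (𝓝[>] 0) (𝓝 (-s)) := by
    refine (br_k hb hS hx hi).congr' ?_
    filter_upwards [ev_pos] with w hw
    exact (n1 w hw).symm
  have t2 : Tendsto (fun w : ℝ => w ^ (D + (t.2.2 + M - 1) - 1) * stp t V w (sw i)) (𝓝[>] 0)
      (𝓝 ((if e = 1 then 1 else 0) * -s)) := by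
    by_cases h1 : e = 1
    · rw [if_pos h1, one_mul]
      refine (br_k hb hS hx gi).congr' ?_
      filter_upwards [ev_pos] with w hw
      rw [n2 w hw, h1, sub_self, zpow_zero, one_mul]
    · rw [if_neg h1, zero_mul]
      have h2 := (WST_zpow (n := e - 1) (by omega)).mul (br_k hb hS hx gi)
      rw [zero_mul] at h2
      refine h2.congr' ?_
      filter_upwards [ev_pos] with w hw
      exact (n2 w hw).symm
  refine ⟨-s, if e = 1 then 1 else 0, by rwa [abs_neg], ⟨t1, ?_, fun h => absurd h hi, fun _ => ⟨t2, n3⟩⟩,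
    fun h1 => ?_⟩
  · split_ifs <;> norm_num
  rw [abs_neg] at h1
  obtain ⟨c₁, c₂, c₃, hd, hB⟩ := hT h1
  have k1 := brT_k hb hd hx hi
  have k2 := brT_k hb hd hx gi
  have k1' := k1.congr fun w hw _ => (n1 w hw).symm
  have hL : Lf (2 + c₁) (3 + 2 * c₁ + c₂) (4 + 3 * c₁ + 2 * c₂ + c₃) = Lf c₁ c₂ c₃ + 18 := by
    unfold Lf
    ring
  have fin : ∀ r : ℤ × ℤ × ℤ × ℤ, r ∈ S → pot r = 0 →
      SInv i (D + (t.2.2 + M - 1)) (-s) (2 + c₁) (3 + 2 * c₁ + c₂) (4 + 3 * c₁ + 2 * c₂ + c₃) r (stp t V) →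
      ∃ (c₁ c₂ c₃ : ℝ) (r : ℤ × ℤ × ℤ × ℤ), SInv i (D + (t.2.2 + M - 1)) (-s) c₁ c₂ c₃ r (stp t V) ∧
        r ∈ S ∧ ((B + 18 : ℤ) : ℝ) + pot r ≤ Lf c₁ c₂ c₃ := by
    intro r h2 h3 h4
    refine ⟨_, _, _, r, h4, h2, ?_⟩
    rw [hL, h3]
    push_cast
    linarith
  by_cases e1 : e = 1
  · refine fin _ hA.h1 hA.hp1 ?_
    refine SSTF_build i hi _ (-s) _ _ _ _ _ k1' (k2.congr fun w hw _ => ?_) ?_ ?_ ?_ ?_ n3
    · rw [n2 w hw, e1, sub_self, zpow_zero, one_mul]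
    all_goals simp
  · have he2 : 2 ≤ e := by omega
    refine fin (nf e) (hA.hnf e he2).1 (hA.hnf e he2).2 ?_
    unfold nf
    rcases eq_or_ne e 2 with h2 | h2
    · refine SSTF_build i hi _ (-s) _ _ _ _ _ k1' (k2.z1.congr fun w hw _ => ?_) ?_ ?_ ?_ ?_ n3
      · rw [n2 w hw, h2]
        norm_num
      all_goals simp [h2]
    · rcases eq_or_ne e 3 with h3 | h3
      · refine SSTF_build i hi _ (-s) _ _ _ _ _ k1' (k2.z2.congr fun w hw _ => ?_) ?_ ?_ ?_ ?_ n3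
        · rw [n2 w hw, h3]
          norm_num
        all_goals simp [h3]
      · rcases eq_or_ne e 4 with h4 | h4
        · refine SSTF_build i hi _ (-s) _ _ _ _ _ k1' (k2.z3.congr fun w hw _ => ?_) ?_ ?_ ?_ ?_ n3
          · rw [n2 w hw, h4]
            norm_num
          all_goals simp [h4]
        · refine SSTF_build i hi _ (-s) _ _ _ _ _ k1' ((k2.z4 (n := e - 1) (by omega)).congr
            fun w hw _ => ?_) ?_ ?_ ?_ ?_ n3
          · rw [n2 w hw]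
          all_goals simp [h2, h3, h4]

/-- a tie -/
theorem E_tie (h : SumGood D B V) (hb : 5 ≤ t.2.2) (hac : t.1 = t.2.1) (ha : 5 ≤ t.1) :
    TieGood (D + (t.2.2 + t.1 - 1)) (B + 18) (stp t V) := by
  obtain ⟨s, hs, hS, hx, hT⟩ := h
  have n1 : ∀ w : ℝ, 0 < w → w ^ (D + (t.2.2 + t.1 - 1)) * stp t V w 0 = w ^ (-1 : ℤ) * br D V t.2.2 0 w := by
    intro w hw
    rw [br_new t V D _ w hw, show SSTF_ex t 0 = t.1 from rfl]
    congr 2
    ring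
  have n2 : ∀ w : ℝ, 0 < w → w ^ (D + (t.2.2 + t.1 - 1)) * stp t V w 1 = w ^ (-1 : ℤ) * br D V t.2.2 1 w := by
    intro w hw
    rw [br_new t V D _ w hw, show SSTF_ex t 1 = t.2.1 from rfl, ← hac]
    congr 2
    ring
  refine ⟨-s, by rwa [abs_neg], ?_, ?_, ?_, fun h1 => ?_⟩
  · refine (br_k hb hS hx (k := 0) (by decide)).congr' ?_
    filter_upwards [ev_pos] with w hw
    exact (n1 w hw).symm
  · have h1 := (Bd.O (hx 1) (t.2.2 - 1) 4 (by push_cast; omega)).sub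
      (Bd.O (hx 0) (t.2.2 - 1) 4 (by push_cast; omega))
    refine IsBigO.congr' h1 ?_ EventuallyEq.rfl
    filter_upwards [ev_pos] with w hw
    rw [mul_sub, n2 w hw, n1 w hw]
    unfold br
    rw [SSTF_mu (k := 0) (by decide), SSTF_mu (k := 1) (by decide), zpow_sub_one₀ hw.ne',
      _root_.zpow_neg_one]
    ring
  · refine IsBigO.congr' (O_of_td (br_two hb hS hx) (t.1 - 1) 4 (by push_cast; omega)) ?_ EventuallyEq.rfl
    filter_upwards [ev_pos] with w hw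
    rw [br_new t V D _ w hw, show SSTF_ex t 2 = 0 from rfl]
    congr 2
    ring
  · rw [abs_neg] at h1
    obtain ⟨c₁, c₂, c₃, hd, hB⟩ := hT h1
    refine ⟨2 + c₁, 3 + 2 * c₁ + c₂, 4 + 3 * c₁ + 2 * c₂ + c₃, ?_, ?_⟩
    · rw [hd_iff]
      exact (brT_k hb hd hx (k := 0) (by decide)).congr fun w hw _ => (n1 w hw).symm
    · have hL : Lf (2 + c₁) (3 + 2 * c₁ + c₂) (4 + 3 * c₁ + 2 * c₂ + c₃) = Lf c₁ c₂ c₃ + 18 := by
        unfold Lf
        ring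
      rw [hL]
      push_cast
      linarith

end

end Pool.Agent.FB.W9
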