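import Pool.Agent.FB.W9.ES

/-!
# FB/W9, module FS: the steps with `b < 0` which are not in `FB/W8`
-/

set_option autoImplicit false

open Filter Asymptotics Topology Matrix LaurentPolynomial Pool.RU Pool.Agent.FB.W8

namespace Pool.Agent.FB.W9

section
variable {D B : ℤ} {V : ℝ → Fin 3 → ℝ} {s : ℝ} {t : ℤ × ℤ × ℤ}

/-- the bracket of the coordinate `k`: `x_k - (1 - w^(-b)) m_k S` -/
noncomputable def bf (D : ℤ) (V : ℝ → Fin 3 → ℝ) (b : ℤ) (k : Fin 3) (w : ℝ) : ℝ :=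
  w ^ D * V w k - (1 - w ^ (-b)) * SSTF_m w k * (w ^ D * V w 0 + w ^ D * V w 1 + w ^ D * V w 2)

theorem bf_new (t : ℤ × ℤ × ℤ) (V : ℝ → Fin 3 → ℝ) (D n : ℤ) (w : ℝ) (hw : 0 < w) (k : Fin 3) :
    w ^ (D + n) * stp t V w k = w ^ (n - SSTF_ex t k) * bf D V t.2.2 k w :=
  SSTF_new t V D n w hw k

theorem td_onef {b : ℤ} (hb : b ≤ -5) : Tendsto (fun w : ℝ => 1 - w ^ (-b)) (𝓝[>] (0 : ℝ)) (𝓝 1) := by
  have h := (WST_zpow (n := -b) (by omega)).const_sub 1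
  rwa [sub_zero] at h

theorem td_u2 : Tendsto (fun w : ℝ => 1 - 2 * u w) (𝓝[>] (0 : ℝ)) (𝓝 1) := by
  have := (tendsto_u.const_mul 2).const_sub 1
  simpa using this

/-- the limit of the bracket, `k ≠ 2` -/
theorem bf_k {b : ℤ} (hb : b ≤ -5) (h : Tendsto (fun w : ℝ => w ^ D * sm V w) (𝓝[>] 0) (𝓝 s))
    {k : Fin 3} (hk : k ≠ 2) {a : ℝ} (hx : Tendsto (fun w : ℝ => w ^ D * V w k) (𝓝[>] 0) (𝓝 a)) :
    Tendsto (bf D V b k) (𝓝[>] 0) (𝓝 a) := by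
  have h2 := hx.sub (((td_onef hb).mul tendsto_u).mul (td_sm h))
  rw [mul_zero, zero_mul, sub_zero] at h2
  refine h2.congr fun w => ?_
  unfold bf
  rw [SSTF_mu hk]

/-- the limit of the bracket divided by `w`, `k ≠ 2` -/
theorem bf_kw {b : ℤ} (hb : b ≤ -5) (h : Tendsto (fun w : ℝ => w ^ D * sm V w) (𝓝[>] 0) (𝓝 s))
    {k : Fin 3} (hk : k ≠ 2) {a : ℝ}
    (hx : Tendsto (fun w : ℝ => w ^ (-1 : ℤ) * (w ^ D * V w k)) (𝓝[>] 0) (𝓝 a)) :
    Tendsto (fun w => w ^ (-1 : ℤ) * bf D V b k w) (𝓝[>] 0) (𝓝 (a + s)) := by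
  have h2 := hx.sub (((td_onef hb).mul tendsto_u_div).mul (td_sm h))
  rw [one_mul, neg_one_mul, sub_neg_eq_add] at h2
  refine h2.congr fun w => ?_
  unfold bf
  rw [SSTF_mu hk]
  ring

/-- the limit of the bracket, `k = 2` -/
theorem bf_two {b : ℤ} (hb : b ≤ -5) (h : Tendsto (fun w : ℝ => w ^ D * sm V w) (𝓝[>] 0) (𝓝 s))
    {a : ℝ} (hx : Tendsto (fun w : ℝ => w ^ D * V w 2) (𝓝[>] 0) (𝓝 a)) :
    Tendsto (bf D V b 2) (𝓝[>] 0) (𝓝 (a - s)) := by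
  have h2 := hx.sub (((td_onef hb).mul td_u2).mul (td_sm h))
  rw [one_mul, one_mul] at h2
  exact h2

/-! ### type `2` -/

theorem H3_comb {S : Finset (ℤ × ℤ × ℤ × ℤ)} {V V₁ V₂ : ℝ → Fin 3 → ℝ} (h1 : H3_Good S 2 D B V₁)
    (h2 : H3_Good S 2 D B V₂) (e2 : ∀ w, V w 2 = V₁ w 2) (e0 : ∀ w, V w 0 = V₁ w 0)
    (e1 : ∀ w, V w 1 = V₂ w 1) : H3_Good S 2 D B V := by
  obtain ⟨s, κ, hs, hW, hS⟩ := h1
  obtain ⟨s', κ', hs', hW', hS'⟩ := h2
  have hO1 : (fun w : ℝ => w ^ D * V w 1) =O[𝓝[>] (0 : ℝ)] fun w => w ^ 5 := by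
    refine (hW'.2.2.1 rfl).2.congr_left fun w => ?_
    rw [e1]
  have hO0 : (fun w : ℝ => w ^ D * V w 0) =O[𝓝[>] (0 : ℝ)] fun w => w ^ 5 := by
    refine (hW.2.2.1 rfl).1.congr_left fun w => ?_
    rw [e0]
  refine ⟨s, κ, hs, ⟨?_, hW.2.1, fun _ => ⟨hO0, hO1⟩, fun h => absurd rfl h⟩, fun h1 => ?_⟩
  · refine hW.1.congr fun w => ?_
    rw [e2]
  · obtain ⟨c₁, c₂, c₃, r, hI, hr, hB⟩ := hS h1
    refine ⟨c₁, c₂, c₃, r, ⟨?_, fun _ => ⟨(hI.2.1 rfl).1, hO0, hO1⟩, fun h => absurd rfl h⟩, hr, hB⟩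
    refine hI.1.congr (Eventually.of_forall fun w => ?_)
    exact (e2 w).symm

/-- the step of `FB/W8` -/
theorem F_old {S : Finset (ℤ × ℤ × ℤ × ℤ)} (hA : Aut S) {X : Fin 3} (h : H3_Good S X D B V) (ht : Hyp t) :
    H3_Good S (ty t) (D + dl X t) (B + if ty t = 2 then 24 else 18) (stp t V) :=
  H3_step thm_W (thm_S thm_SE thm_SF) hA.h0 hA.hnf hA.hp0 hA.hA t ht h

theorem F_two {S : Finset (ℤ × ℤ × ℤ × ℤ)} (hA : Aut S) {X : Fin 3} (h : H3_Good S X D B V)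
    (hb : t.2.2 ≤ -5) (ha : t.1 ≤ -5) (hc : t.2.1 ≤ -5) :
    H3_Good S 2 (D + dl X t) (B + 24) (stp t V) := by
  have k1 : Hyp (t.1, t.1 - 2, t.2.2) := by
    refine ⟨?_, ?_, ?_, ?_⟩
    · show (5 : ℤ) ≤ |t.1|
      rw [abs_of_neg (by omega)]; omega
    · show (5 : ℤ) ≤ |t.1 - 2|
      rw [abs_of_neg (by omega)]; omega
    · show (5 : ℤ) ≤ |t.2.2|
      rw [abs_of_neg (by omega)]; omega
    · show (2 : ℤ) ≤ |t.1 - (t.1 - 2)|
      rw [abs_of_pos (by omega)]; omega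
  have k2 : Hyp (t.2.1 - 2, t.2.1, t.2.2) := by
    refine ⟨?_, ?_, ?_, ?_⟩
    · show (5 : ℤ) ≤ |t.2.1 - 2|
      rw [abs_of_neg (by omega)]; omega
    · show (5 : ℤ) ≤ |t.2.1|
      rw [abs_of_neg (by omega)]; omega
    · show (5 : ℤ) ≤ |t.2.2|
      rw [abs_of_neg (by omega)]; omega
    · show (2 : ℤ) ≤ |t.2.1 - 2 - t.2.1|
      rw [abs_of_neg (by omega)]; omega
  have y0 : ty t = 2 := (ty_two_iff t).2 ⟨by omega, by omega⟩
  have y1 : ty (t.1, t.1 - 2, t.2.2) = 2 := (ty_two_iff _).2 ⟨by show t.1 < 0; omega, by show t.1 - 2 < 0; omega⟩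
  have y2 : ty (t.2.1 - 2, t.2.1, t.2.2) = 2 :=
    (ty_two_iff _).2 ⟨by show t.2.1 - 2 < 0; omega, by show t.2.1 < 0; omega⟩
  have g1 := F_old hA h k1
  have g2 := F_old hA h k2
  rw [y1, if_pos rfl] at g1
  rw [y2, if_pos rfl] at g2
  have d1 : dl X (t.1, t.1 - 2, t.2.2) = dl X t := by
    unfold dl
    rw [y0, y1]
    simp
  have d2 : dl X (t.2.1 - 2, t.2.1, t.2.2) = dl X t := by
    unfold dl
    rw [y0, y2]
    simp
  rw [d1] at g1
  rw [d2] at g2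
  refine H3_comb g1 g2 (fun w => ?_) (fun w => ?_) (fun w => ?_)
  · rw [stp_two, stp_two]
  · rw [stp_zero, stp_zero]
  · rw [stp_one, stp_one]

/-! ### from a tie -/

/-- what a tie gives -/
theorem tie_in (h0 : Tendsto (fun w : ℝ => w ^ D * V w 0) (𝓝[>] 0) (𝓝 s))
    (h1 : (fun w : ℝ => w ^ D * (V w 1 - V w 0)) =O[𝓝[>] (0 : ℝ)] fun w => w ^ 4)
    (h2 : (fun w : ℝ => w ^ D * V w 2) =O[𝓝[>] (0 : ℝ)] fun w => w ^ 4) :
    Tendsto (fun w : ℝ => w ^ D * V w 1) (𝓝[>] 0) (𝓝 s) ∧ Tendsto (fun w : ℝ => w ^ D * V w 2) (𝓝[>] 0) (𝓝 0) ∧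
      Tendsto (fun w : ℝ => w ^ D * sm V w) (𝓝[>] 0) (𝓝 (2 * s)) := by
  have t1 := O_tendsto_zero (by norm_num) h1
  have t2 := O_tendsto_zero (by norm_num) h2
  refine ⟨?_, t2, ?_⟩
  · have h4 := h0.add t1
    rw [add_zero] at h4
    refine h4.congr fun w => ?_
    ring
  · have h3 := ((h0.add h0).add t1).add t2
    rw [add_zero, add_zero, ← two_mul] at h3
    refine h3.congr fun w => ?_
    unfold sm
    ring

/-- four coefficients of the bracket after a tie, `k = 0, 1` -/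
theorem tie_T {b : ℤ} (hb : b ≤ -5) {c₁ c₂ c₃ : ℝ} (h0 : Hd (fun w => V w 0) s D c₁ c₂ c₃)
    (h1 : (fun w : ℝ => w ^ D * (V w 1 - V w 0)) =O[𝓝[>] (0 : ℝ)] fun w => w ^ 4)
    (h2 : (fun w : ℝ => w ^ D * V w 2) =O[𝓝[>] (0 : ℝ)] fun w => w ^ 4) {k : Fin 3} (hk : k ≠ 2) :
    SSTF_T (bf D V b k) s (s * (c₁ + 2)) (s * (c₂ + 2 * c₁ + 4)) (s * (c₃ + 2 * c₂ + 4 * c₁ + 6)) := by
  have g0 := hd_iff.1 h0
  have g1 := SSTF_T.zero h1
  have g2 := SSTF_T.zero h2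
  have gS : SSTF_T (fun w => w ^ D * V w 0 + w ^ D * V w 1 + w ^ D * V w 2) (2 * s) (2 * (s * c₁))
      (2 * (s * c₂)) (2 * (s * c₃)) := by
    refine (((((SSTF_poly 2 0 0 0).mul g0).add g1).add g2).congr fun w _ _ => ?_).coef ?_ ?_ ?_ ?_ <;> ring
  have gk : SSTF_T (fun w => w ^ D * V w k) s (s * c₁) (s * c₂) (s * c₃) := by
    fin_cases k
    · exact g0
    · refine ((g0.add g1).congr fun w _ _ => ?_).coef ?_ ?_ ?_ ?_
      · show w ^ D * V w 0 + w ^ D * (V w 1 - V w 0) = w ^ D * V w 1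
        ring
      all_goals ring
    · exact absurd rfl hk
  refine ((gk.sub (((SSTF_one hb).mul SSTF_u).mul gS)).congr fun w _ _ => ?_).coef ?_ ?_ ?_ ?_
  · unfold bf
    rw [SSTF_mu hk]
  all_goals ring

theorem Lf_24 (c₁ c₂ c₃ : ℝ) :
    Lf (c₁ + 2) (c₂ + 2 * c₁ + 4) (c₃ + 2 * c₂ + 4 * c₁ + 6) = Lf c₁ c₂ c₃ + 24 := by
  unfold Lf
  ring

/-- a block of type `2` after a tie -/
theorem Tf_two {S : Finset (ℤ × ℤ × ℤ × ℤ)} (h : TieGood D B V) (hb : t.2.2 ≤ -5)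
    (ha : t.1 ≤ -5) (hc : t.2.1 ≤ -5) : H3_Good S 2 D (B + 24) (stp t V) := by
  obtain ⟨s, hs, h0, h1, h2, -⟩ := h
  obtain ⟨t1, t2, tS⟩ := tie_in h0 h1 h2
  have hO : ∀ k : Fin 3, k ≠ 2 → SSTF_ex t k ≤ -5 → ∀ a : ℝ, Tendsto (fun w : ℝ => w ^ D * V w k) (𝓝[>] 0) (𝓝 a) →
      (fun w : ℝ => w ^ D * stp t V w k) =O[𝓝[>] (0 : ℝ)] fun w => w ^ 5 := by
    intro k hk hk5 a hx
    refine IsBigO.congr' (O_of_td (bf_k hb tS hk hx) (-SSTF_ex t k) 5 (by push_cast; omega)) ?_ EventuallyEq.rfl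
    filter_upwards [ev_pos] with w hw
    have h3 := bf_new t V D 0 w hw k
    rw [add_zero, zero_sub] at h3
    exact h3.symm
  have hs2 : |-(2 * s)| = 2 * |s| := by
    rw [abs_neg, abs_mul]
    norm_num
  refine ⟨-(2 * s), 0, by rw [hs2]; linarith, ⟨?_, le_rfl, fun _ => ⟨hO 0 (by decide) ha _ h0, hO 1 (by decide) hc _ t1⟩,
    fun h => absurd rfl h⟩, fun h3 => ?_⟩
  · have h3 := bf_two hb tS t2
    rw [zero_sub] at h3
    refine h3.congr' ?_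
    filter_upwards [ev_pos] with w hw
    have h4 := bf_new t V D 0 w hw 2
    rw [add_zero, show SSTF_ex t 2 = 0 from rfl, sub_zero, zpow_zero, one_mul] at h4
    exact h4.symm
  · rw [hs2] at h3
    linarith

/-- a block of type `0`, `1` after a tie -/
theorem Tf_i {S : Finset (ℤ × ℤ × ℤ × ℤ)} (hA : Aut S) (h : TieGood D B V) (hb : t.2.2 ≤ -5)
    {i : Fin 3} {M e : ℤ} (hE : Ex t i M e) (he2 : 2 ≤ e) :
    H3_Good S i (D + M) (B + 18) (stp t V) := by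
  obtain ⟨s, hs, h0, h1, h2, hT⟩ := h
  obtain ⟨t1, t2, tS⟩ := tie_in h0 h1 h2
  obtain ⟨hi, hM, hM5, hes, -⟩ := hE
  have gi : sw i ≠ 2 := (SSTF_sw hi).1
  have tk : ∀ k : Fin 3, k ≠ 2 → Tendsto (fun w : ℝ => w ^ D * V w k) (𝓝[>] 0) (𝓝 s) := by
    intro k hk
    fin_cases k
    · exact h0
    · exact t1
    · exact absurd rfl hk
  have n1 : ∀ w : ℝ, 0 < w → w ^ (D + M) * stp t V w i = bf D V t.2.2 i w := by
    intro w hw
    rw [bf_new t V D _ w hw, hM, sub_self, zpow_zero, one_mul]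
  have n2 : ∀ w : ℝ, 0 < w → w ^ (D + M - 1) * stp t V w (sw i) = w ^ (e - 1) * bf D V t.2.2 (sw i) w := by
    intro w hw
    rw [add_sub_assoc, bf_new t V D _ w hw, hes]
    congr 2
    ring
  have n3 : (fun w : ℝ => w ^ (D + M) * stp t V w 2) =O[𝓝[>] (0 : ℝ)] fun w => w ^ 4 := by
    refine IsBigO.congr' (O_of_td (bf_two hb tS t2) M 4 (by push_cast; omega)) ?_ EventuallyEq.rfl
    filter_upwards [ev_pos] with w hw
    rw [bf_new t V D _ w hw, show SSTF_ex t 2 = 0 from rfl, sub_zero]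
  have q1 : Tendsto (fun w : ℝ => w ^ (D + M) * stp t V w i) (𝓝[>] 0) (𝓝 s) := by
    refine (bf_k hb tS hi (tk i hi)).congr' ?_
    filter_upwards [ev_pos] with w hw
    exact (n1 w hw).symm
  have q2 : Tendsto (fun w : ℝ => w ^ (D + M - 1) * stp t V w (sw i)) (𝓝[>] 0) (𝓝 (0 * s)) := by
    have h2 := (WST_zpow (n := e - 1) (by omega)).mul (bf_k hb tS gi (tk _ gi))
    refine h2.congr' ?_
    filter_upwards [ev_pos] with w hw
    exact (n2 w hw).symm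
  refine ⟨s, 0, hs, ⟨q1, le_rfl, fun h => absurd h hi, fun _ => ⟨q2, n3⟩⟩, fun h3 => ?_⟩
  obtain ⟨c₁, c₂, c₃, hd, hB⟩ := hT h3
  have k1 := (tie_T hb hd h1 h2 hi).congr fun w hw _ => (n1 w hw).symm
  have k2 := tie_T hb hd h1 h2 gi
  refine ⟨c₁ + 2, c₂ + 2 * c₁ + 4, c₃ + 2 * c₂ + 4 * c₁ + 6, nf e, ?_, (hA.hnf e he2).1, ?_⟩
  · unfold nf
    rcases eq_or_ne e 2 with h2 | h2
    · refine SSTF_build i hi _ s _ _ _ _ _ k1 (k2.z1.congr fun w hw _ => ?_) ?_ ?_ ?_ ?_ n3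
      · rw [n2 w hw, h2]
        norm_num
      all_goals simp [h2]
    · rcases eq_or_ne e 3 with h3 | h3
      · refine SSTF_build i hi _ s _ _ _ _ _ k1 (k2.z2.congr fun w hw _ => ?_) ?_ ?_ ?_ ?_ n3
        · rw [n2 w hw, h3]
          norm_num
        all_goals simp [h3]
      · rcases eq_or_ne e 4 with h4 | h4
        · refine SSTF_build i hi _ s _ _ _ _ _ k1 (k2.z3.congr fun w hw _ => ?_) ?_ ?_ ?_ ?_ n3
          · rw [n2 w hw, h4]
            norm_num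
          all_goals simp [h4]
        · refine SSTF_build i hi _ s _ _ _ _ _ k1 ((k2.z4 (n := e - 1) (by omega)).congr
            fun w hw _ => ?_) ?_ ?_ ?_ ?_ n3
          · rw [n2 w hw]
          all_goals simp [h2, h3, h4]
  · rw [Lf_24, (hA.hnf e he2).2]
    push_cast
    linarith

/-- a near tie after a tie: only the sum is used -/
theorem Tf_near (h : TieGood D B V) (hb : t.2.2 ≤ -5) {M : ℤ} (hM5 : 5 ≤ M) {i : Fin 3} (hi : i ≠ 2)
    (hM : SSTF_ex t i = M) {e : ℤ} (he : e = 0 ∨ e = 1) (hes : SSTF_ex t (sw i) = M - e) :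
    SumGood (D + M) (B + 18) (stp t V) := by
  obtain ⟨s, hs, h0, h1, h2, hT⟩ := h
  obtain ⟨t1, t2, tS⟩ := tie_in h0 h1 h2
  have gi : sw i ≠ 2 := (SSTF_sw hi).1
  have tk : ∀ k : Fin 3, k ≠ 2 → Tendsto (fun w : ℝ => w ^ D * V w k) (𝓝[>] 0) (𝓝 s) := by
    intro k hk
    fin_cases k
    · exact h0
    · exact t1
    · exact absurd rfl hk
  have n1 : ∀ w : ℝ, 0 < w → w ^ (D + M) * stp t V w i = bf D V t.2.2 i w := by
    intro w hw
    rw [bf_new t V D _ w hw, hM, sub_self, zpow_zero, one_mul]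
  have n2 : ∀ w : ℝ, 0 < w → w ^ (D + M) * stp t V w (sw i) = w ^ e * bf D V t.2.2 (sw i) w := by
    intro w hw
    rw [bf_new t V D _ w hw, hes]
    congr 2
    ring
  have n3 : ∀ w : ℝ, 0 < w → w ^ (D + M) * stp t V w 2 = w ^ M * bf D V t.2.2 2 w := by
    intro w hw
    rw [bf_new t V D _ w hw, show SSTF_ex t 2 = 0 from rfl, sub_zero]
  have hsum : ∀ w : ℝ, 0 < w → w ^ (D + M) * sm (stp t V) w = bf D V t.2.2 i w +
      w ^ e * bf D V t.2.2 (sw i) w + w ^ M * bf D V t.2.2 2 w := by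
    intro w hw
    rw [← n1 w hw, ← n2 w hw, ← n3 w hw]
    have h3 := (SSTF_sw hi).2.2 (fun k => w ^ (D + M) * stp t V w k)
    rw [← h3]
    unfold sm
    ring
  have b1 := bf_k hb tS hi (tk i hi)
  have b2 := bf_k hb tS gi (tk _ gi)
  have b3 := bf_two hb tS t2
  have z3 : Tendsto (fun w : ℝ => w ^ M * bf D V t.2.2 2 w) (𝓝[>] 0) (𝓝 0) := by
    have := (WST_zpow (n := M) (by omega)).mul b3
    rwa [zero_mul] at this
  have z2 : Tendsto (fun w : ℝ => w ^ e * bf D V t.2.2 (sw i) w) (𝓝[>] 0)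
      (𝓝 (if e = 0 then s else 0)) := by
    rcases he with he | he
    · rw [if_pos he, he]
      refine b2.congr fun w => ?_
      rw [zpow_zero, one_mul]
    · rw [if_neg (by omega)]
      have := (WST_zpow (n := e) (by omega)).mul b2
      rwa [zero_mul] at this
  have hbd : ∀ k, (fun w : ℝ => w ^ (D + M) * stp t V w k) =O[𝓝[>] (0 : ℝ)] fun w => w ^ 0 := by
    intro k
    have hk : k = 2 ∨ k = i ∨ k = sw i := by
      fin_cases k <;> fin_cases i <;> simp_all [sw]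
    rcases hk with hk | hk | hk
    · rw [hk]
      refine (O_of_tendsto z3).congr' ?_ EventuallyEq.rfl
      filter_upwards [ev_pos] with w hw
      exact (n3 w hw).symm
    · rw [hk]
      refine (O_of_tendsto b1).congr' ?_ EventuallyEq.rfl
      filter_upwards [ev_pos] with w hw
      exact (n1 w hw).symm
    · rw [hk]
      refine (O_of_tendsto z2).congr' ?_ EventuallyEq.rfl
      filter_upwards [ev_pos] with w hw
      exact (n2 w hw).symm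
  have hlim : Tendsto (fun w : ℝ => w ^ (D + M) * sm (stp t V) w) (𝓝[>] 0)
      (𝓝 (s + (if e = 0 then s else 0) + 0)) := by
    refine ((b1.add z2).add z3).congr' ?_
    filter_upwards [ev_pos] with w hw
    exact (hsum w hw).symm
  rcases he with he | he
  · rw [if_pos he, add_zero, ← two_mul] at hlim
    have hs2 : |2 * s| = 2 * |s| := by
      rw [abs_mul]
      norm_num
    refine ⟨2 * s, by rw [hs2]; linarith, hlim, hbd, fun h3 => ?_⟩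
    rw [hs2] at h3
    linarith
  · rw [if_neg (by omega), add_zero, add_zero] at hlim
    refine ⟨s, hs, hlim, hbd, fun h3 => ?_⟩
    obtain ⟨c₁, c₂, c₃, hd, hB⟩ := hT h3
    have k1 := tie_T hb hd h1 h2 hi
    have k2 := tie_T hb hd h1 h2 gi
    have k3 : SSTF_T (fun w : ℝ => w ^ M * bf D V t.2.2 2 w) 0 0 0 0 :=
      SSTF_T.zero (O_of_td b3 M 4 (by push_cast; omega))
    refine ⟨c₁ + 3, c₂ + 3 * c₁ + 6, c₃ + 3 * c₂ + 6 * c₁ + 10, ?_, ?_⟩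
    · rw [hd_iff]
      refine (((k1.add k2.z1).add k3).congr fun w hw _ => ?_).coef ?_ ?_ ?_ ?_
      · rw [hsum w hw, he]
      all_goals ring
    · have hL : Lf (c₁ + 3) (c₂ + 3 * c₁ + 6) (c₃ + 3 * c₂ + 6 * c₁ + 10) = Lf c₁ c₂ c₃ + 27 := by
        unfold Lf
        ring
      rw [hL]
      push_cast
      linarith

end

end Pool.Agent.FB.W9
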