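import Pool.Agent.FB.W9.FS

/-!
# FB/W9, module NS: a near tie with `b < 0` before a block with `b > 0`
-/

set_option autoImplicit false

open Filter Asymptotics Topology Matrix LaurentPolynomial Pool.RU Pool.Agent.FB.W8

namespace Pool.Agent.FB.W9

section
variable {D B : ℤ} {V : ℝ → Fin 3 → ℝ} {s : ℝ} {t : ℤ × ℤ × ℤ}

/-- the exponents of a near tie -/
structure Nr (t : ℤ × ℤ × ℤ) (i : Fin 3) (M e : ℤ) : Prop where
  i2 : i ≠ 2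
  ex : SSTF_ex t i = M
  M5 : 5 ≤ M
  exs : SSTF_ex t (sw i) = M - e
  e01 : e = 0 ∨ e = 1

theorem three {i : Fin 3} (hi : i ≠ 2) (k : Fin 3) : k = 2 ∨ k = i ∨ k = sw i := by
  fin_cases k <;> fin_cases i <;> simp_all [sw]

theorem sm_split {i : Fin 3} (hi : i ≠ 2) (n : ℤ) (W : ℝ → Fin 3 → ℝ) (w : ℝ) :
    w ^ n * sm W w = w ^ n * W w i + w ^ n * W w (sw i) + w ^ n * W w 2 := by
  have h3 := (SSTF_sw hi).2.2 (fun k => w ^ n * W w k)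
  rw [← h3]
  unfold sm
  ring

/-- the sum from the three coordinates -/
theorem sum_of {i : Fin 3} (hi : i ≠ 2) {n : ℤ} {W : ℝ → Fin 3 → ℝ} {f g : ℝ → ℝ} {a b c : ℝ}
    (h1 : Tendsto f (𝓝[>] 0) (𝓝 a)) (h2 : Tendsto g (𝓝[>] 0) (𝓝 b))
    (h3 : (fun w : ℝ => w ^ n * W w 2) =O[𝓝[>] (0 : ℝ)] fun w => w ^ 4)
    (e1 : ∀ w : ℝ, 0 < w → w ^ n * W w i = f w) (e2 : ∀ w : ℝ, 0 < w → w ^ n * W w (sw i) = g w)
    (hc : a + b = c) :
    Tendsto (fun w : ℝ => w ^ n * sm W w) (𝓝[>] 0) (𝓝 c) ∧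
      ∀ k, (fun w : ℝ => w ^ n * W w k) =O[𝓝[>] (0 : ℝ)] fun w => w ^ 0 := by
  have t3 := O_tendsto_zero (by norm_num) h3
  constructor
  · have h4 := (h1.add h2).add t3
    rw [add_zero, hc] at h4
    refine h4.congr' ?_
    filter_upwards [ev_pos] with w hw
    rw [sm_split hi, e1 w hw, e2 w hw]
  · intro k
    rcases three hi k with hk | hk | hk
    · rw [hk]
      exact O_of_tendsto t3
    · rw [hk]
      refine (O_of_tendsto h1).congr' ?_ EventuallyEq.rfl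
      filter_upwards [ev_pos] with w hw
      exact (e1 w hw).symm
    · rw [hk]
      refine (O_of_tendsto h2).congr' ?_ EventuallyEq.rfl
      filter_upwards [ev_pos] with w hw
      exact (e2 w hw).symm

theorem sumT_of {i : Fin 3} (hi : i ≠ 2) {n : ℤ} {W : ℝ → Fin 3 → ℝ} {f g : ℝ → ℝ}
    {a₀ a₁ a₂ a₃ b₀ b₁ b₂ b₃ : ℝ} (h1 : SSTF_T f a₀ a₁ a₂ a₃) (h2 : SSTF_T g b₀ b₁ b₂ b₃)
    (h3 : (fun w : ℝ => w ^ n * W w 2) =O[𝓝[>] (0 : ℝ)] fun w => w ^ 4)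
    (e1 : ∀ w : ℝ, 0 < w → w ^ n * W w i = f w) (e2 : ∀ w : ℝ, 0 < w → w ^ n * W w (sw i) = g w) :
    SSTF_T (fun w : ℝ => w ^ n * sm W w) (a₀ + b₀) (a₁ + b₁) (a₂ + b₂) (a₃ + b₃) := by
  refine (((h1.add h2).add (SSTF_T.zero h3)).congr fun w hw _ => ?_).coef ?_ ?_ ?_ ?_
  · rw [sm_split hi, e1 w hw, e2 w hw]
  all_goals ring

theorem abs_ge {s a : ℝ} (hs : 1 ≤ |s|) (ha : 2 ≤ a) : 2 ≤ |a * s| := by
  rw [abs_mul, abs_of_nonneg (by linarith)]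
  nlinarith [abs_nonneg s]

/-- a head with a big leading coefficient -/
theorem Sum_weak {n : ℤ} {W : ℝ → Fin 3 → ℝ} {a : ℝ} (hs : 1 ≤ |s|) (ha : 2 ≤ a)
    (h : Tendsto (fun w : ℝ => w ^ n * sm W w) (𝓝[>] 0) (𝓝 (a * s)) ∧
      ∀ k, (fun w : ℝ => w ^ n * W w k) =O[𝓝[>] (0 : ℝ)] fun w => w ^ 0) : SumGood n B W := by
  have h2 := abs_ge hs ha
  refine ⟨a * s, by linarith, h.1, h.2, fun h3 => ?_⟩
  rw [h3] at h2
  norm_num at h2

/-! ### the state `2` -/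

theorem N_two {S : Finset (ℤ × ℤ × ℤ × ℤ)} (h : H3_Good S 2 D B V) (hA : Aut S)
    (hb : t.2.2 ≤ -5) {i : Fin 3} {M e : ℤ} (hN : Nr t i M e) :
    SumGood (D + (M - 1)) (B + 18) (stp t V) := by
  obtain ⟨s, κ, hs, hW, hS⟩ := h
  obtain ⟨hi, hM, hM5, hes, he⟩ := hN
  have gi : sw i ≠ 2 := (SSTF_sw hi).1
  have tS : Tendsto (fun w : ℝ => w ^ D * sm V w) (𝓝[>] 0) (𝓝 s) := WST_S hW
  have hO : ∀ k : Fin 3, k ≠ 2 → (fun w : ℝ => w ^ (-1 : ℤ) * (w ^ D * V w k)) =O[𝓝[>] (0 : ℝ)]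
      fun w => w ^ 4 := by
    intro k hk
    have h5 : (fun w : ℝ => w ^ D * V w k) =O[𝓝[>] (0 : ℝ)] fun w => w ^ 5 := by
      fin_cases k
      · exact (hW.2.2.1 rfl).1
      · exact (hW.2.2.1 rfl).2
      · exact absurd rfl hk
    refine (SSTF_div h5).congr_left fun w => ?_
    rw [_root_.zpow_neg_one]
  have bk : ∀ k : Fin 3, k ≠ 2 → Tendsto (fun w : ℝ => w ^ (-1 : ℤ) * bf D V t.2.2 k w) (𝓝[>] 0) (𝓝 s) := by
    intro k hk
    have h1 := bf_kw hb tS hk (O_tendsto_zero (by norm_num) (hO k hk))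
    rwa [zero_add] at h1
  have n1 : ∀ w : ℝ, 0 < w → w ^ (D + (M - 1)) * stp t V w i = w ^ (-1 : ℤ) * bf D V t.2.2 i w := by
    intro w hw
    rw [bf_new t V D _ w hw, hM]
    congr 2
    ring
  have n2 : ∀ w : ℝ, 0 < w → w ^ (D + (M - 1)) * stp t V w (sw i) =
      w ^ e * (w ^ (-1 : ℤ) * bf D V t.2.2 (sw i) w) := by
    intro w hw
    rw [bf_new t V D _ w hw, hes, ← mul_assoc, ← zpow_add₀ hw.ne']
    congr 2
    ring
  have x2 : Tendsto (fun w : ℝ => w ^ D * V w 2) (𝓝[>] 0) (𝓝 s) := hW.1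
  have n3 : (fun w : ℝ => w ^ (D + (M - 1)) * stp t V w 2) =O[𝓝[>] (0 : ℝ)] fun w => w ^ 4 := by
    refine IsBigO.congr' (O_of_td (bf_two hb tS x2) (M - 1) 4 (by push_cast; omega)) ?_ EventuallyEq.rfl
    filter_upwards [ev_pos] with w hw
    rw [bf_new t V D _ w hw, show SSTF_ex t 2 = 0 from rfl, sub_zero]
  rcases he with he | he
  · have t2 : Tendsto (fun w : ℝ => w ^ e * (w ^ (-1 : ℤ) * bf D V t.2.2 (sw i) w)) (𝓝[>] 0) (𝓝 s) := by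
      refine (bk _ gi).congr fun w => ?_
      rw [he, zpow_zero, one_mul]
    exact Sum_weak hs le_rfl (sum_of hi (bk i hi) t2 n3 n1 n2 (by ring))
  · have t2 : Tendsto (fun w : ℝ => w ^ e * (w ^ (-1 : ℤ) * bf D V t.2.2 (sw i) w)) (𝓝[>] 0) (𝓝 0) := by
      have := (WST_zpow (n := e) (by omega)).mul (bk _ gi)
      rwa [zero_mul] at this
    obtain ⟨l1, l2⟩ := sum_of hi (bk i hi) t2 n3 n1 n2 (add_zero s)
    refine ⟨s, hs, l1, l2, fun h1 => ?_⟩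
    obtain ⟨c₁, c₂, c₃, r, hI, hr, hB⟩ := hS h1
    have hr0 : r = (0, 0, 0, 0) := (hI.2.1 rfl).1
    have gS : SSTF_T (fun w => w ^ D * V w 0 + w ^ D * V w 1 + w ^ D * V w 2) s (s * c₁) (s * c₂)
        (s * c₃) := by
      refine (SSTE_in hI).1.coef rfl ?_ ?_ ?_ <;> rw [hr0] <;> push_cast <;> ring
    have kT : ∀ k : Fin 3, k ≠ 2 → SSTF_T (fun w : ℝ => w ^ (-1 : ℤ) * bf D V t.2.2 k w) s
        (s * (c₁ + 2)) (s * (c₂ + 2 * c₁ + 3)) (s * (c₃ + 2 * c₂ + 3 * c₁ + 4)) := by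
      intro k hk
      refine (((SSTF_T.zero (hO k hk)).add (((SSTF_one hb).mul SSTF_v).mul gS)).congr
        fun w hw hw1 => ?_).coef ?_ ?_ ?_ ?_
      · unfold bf
        rw [SSTF_mu hk, _root_.zpow_neg_one]
        unfold u
        have h1 : 1 - w ≠ 0 := by linarith
        have h2 := hw.ne'
        field_simp
        ring
      all_goals ring
    refine ⟨c₁ + 3, c₂ + 3 * c₁ + 5, c₃ + 3 * c₂ + 5 * c₁ + 7, ?_, ?_⟩
    · rw [hd_iff]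
      refine (sumT_of hi (kT i hi) (((kT _ gi).z1).congr fun w _ _ => ?_) n3 n1
        (fun w hw => n2 w hw)).coef ?_ ?_ ?_ ?_
      · rw [he]
      all_goals ring
    · have hL : Lf (c₁ + 3) (c₂ + 3 * c₁ + 5) (c₃ + 3 * c₂ + 5 * c₁ + 7) = Lf c₁ c₂ c₃ + 21 := by
        unfold Lf
        ring
      have h3 := (hA.hA r hr).2.2.1
      have h4 : (0 : ℝ) ≤ pot r := by exact_mod_cast h3
      rw [hL]
      push_cast
      linarith

/-! ### the states `0`, `1` -/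

/-- what the state `X = 0, 1` gives -/
theorem in_X {X : Fin 3} (hX : X ≠ 2) {κ : ℝ} (hW : WInv X D s κ V) :
    Tendsto (fun w : ℝ => w ^ D * V w X) (𝓝[>] 0) (𝓝 s) ∧
    Tendsto (fun w : ℝ => w ^ D * V w (sw X)) (𝓝[>] 0) (𝓝 0) ∧
    Tendsto (fun w : ℝ => w ^ (-1 : ℤ) * (w ^ D * V w (sw X))) (𝓝[>] 0) (𝓝 (κ * s)) ∧
    Tendsto (fun w : ℝ => w ^ D * V w 2) (𝓝[>] 0) (𝓝 0) := by
  have gX := (SSTF_sw hX)
  have hne : sw X ≠ X := by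
    intro h
    fin_cases X <;> simp_all [sw]
  refine ⟨hW.1, ?_, ?_, O_tendsto_zero (by norm_num) (hW.2.2.2 hX).2⟩
  · have h1 := WST_V hW (sw X)
    rwa [if_neg hne] at h1
  · refine (hW.2.2.2 hX).1.congr' ?_
    filter_upwards [ev_pos] with w hw
    rw [← mul_assoc, ← zpow_add₀ hw.ne', sub_eq_add_neg, add_comm D]

/-- `a = c` -/
theorem N_eq {S : Finset (ℤ × ℤ × ℤ × ℤ)} {X : Fin 3} (h : H3_Good S X D B V) (hA : Aut S) (hX : X ≠ 2)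
    (hb : t.2.2 ≤ -5) {M : ℤ} (hN : Nr t X M 0) : SumGood (D + M) (B + 18) (stp t V) := by
  obtain ⟨s, κ, hs, hW, hS⟩ := h
  obtain ⟨-, hM, hM5, hes, -⟩ := hN
  rw [sub_zero] at hes
  have gi : sw X ≠ 2 := (SSTF_sw hX).1
  obtain ⟨y1, y2, y3, y4⟩ := in_X hX hW
  have tS : Tendsto (fun w : ℝ => w ^ D * sm V w) (𝓝[>] 0) (𝓝 s) := WST_S hW
  have n1 : ∀ w : ℝ, 0 < w → w ^ (D + M) * stp t V w X = bf D V t.2.2 X w := by
    intro w hw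
    rw [bf_new t V D _ w hw, hM, sub_self, zpow_zero, one_mul]
  have n2 : ∀ w : ℝ, 0 < w → w ^ (D + M) * stp t V w (sw X) = bf D V t.2.2 (sw X) w := by
    intro w hw
    rw [bf_new t V D _ w hw, hes, sub_self, zpow_zero, one_mul]
  have n3 : (fun w : ℝ => w ^ (D + M) * stp t V w 2) =O[𝓝[>] (0 : ℝ)] fun w => w ^ 4 := by
    refine IsBigO.congr' (O_of_td (bf_two hb tS y4) M 4 (by push_cast; omega)) ?_ EventuallyEq.rfl
    filter_upwards [ev_pos] with w hw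
    rw [bf_new t V D _ w hw, show SSTF_ex t 2 = 0 from rfl, sub_zero]
  obtain ⟨l1, l2⟩ := sum_of hX (bf_k hb tS hX y1) (bf_k hb tS gi y2) n3 n1 n2 (add_zero s)
  refine ⟨s, hs, l1, l2, fun h1 => ?_⟩
  obtain ⟨c₁, c₂, c₃, r, hI, hr, hB⟩ := hS h1
  have gS := (SSTE_in hI).1
  have g2 := (SSTF_in hX hI).2.2
  refine ⟨c₁ + r.1 + 2, (c₂ + c₁ * r.1 + r.2.1) + 2 * (c₁ + r.1) + 4,
    (c₃ + c₂ * r.1 + c₁ * r.2.1 + r.2.2.1) + 2 * (c₂ + c₁ * r.1 + r.2.1) + 4 * (c₁ + r.1) + 6, ?_, ?_⟩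
  · rw [hd_iff]
    have k1 := (gS.sub g2).sub (((SSTF_poly 2 0 0 0).mul ((SSTF_one hb).mul SSTF_u)).mul gS)
    refine ((k1.add (SSTF_T.zero n3)).congr fun w hw _ => ?_).coef ?_ ?_ ?_ ?_
    · rw [sm_split hX, n1 w hw, n2 w hw]
      unfold bf
      rw [SSTF_mu hX, SSTF_mu gi]
      have h3 := (SSTF_sw hX).2.2 (fun k => w ^ D * V w k)
      linear_combination h3
    all_goals ring
  · rw [Lf_24]
    have h4 : Lf (c₁ + r.1) (c₂ + c₁ * r.1 + r.2.1) (c₃ + c₂ * r.1 + c₁ * r.2.1 + r.2.2.1) =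
        Lf c₁ c₂ c₃ + cf r := by
      unfold Lf cf
      push_cast
      ring
    have h3 : ((0 : ℤ) : ℝ) ≤ ((pot r + cf r : ℤ) : ℝ) := Int.cast_le.2 (hA.hA r hr).2.1
    rw [h4]
    push_cast at h3 ⊢
    linarith

/-- `|a - c| = 1`, the dominating coordinate stays the same -/
theorem N_same {S : Finset (ℤ × ℤ × ℤ × ℤ)} {X : Fin 3} (h : H3_Good S X D B V) (hA : Aut S) (hX : X ≠ 2)
    (hb : t.2.2 ≤ -5) {M : ℤ} (hN : Nr t X M 1) : SumGood (D + M) (B + 18) (stp t V) := by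
  obtain ⟨s, κ, hs, hW, hS⟩ := h
  obtain ⟨-, hM, hM5, hes, -⟩ := hN
  have gi : sw X ≠ 2 := (SSTF_sw hX).1
  obtain ⟨y1, y2, y3, y4⟩ := in_X hX hW
  have tS : Tendsto (fun w : ℝ => w ^ D * sm V w) (𝓝[>] 0) (𝓝 s) := WST_S hW
  have n1 : ∀ w : ℝ, 0 < w → w ^ (D + M) * stp t V w X = bf D V t.2.2 X w := by
    intro w hw
    rw [bf_new t V D _ w hw, hM, sub_self, zpow_zero, one_mul]
  have n2 : ∀ w : ℝ, 0 < w → w ^ (D + M) * stp t V w (sw X) = w ^ (1 : ℤ) * bf D V t.2.2 (sw X) w := by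
    intro w hw
    rw [bf_new t V D _ w hw, hes]
    congr 2
    ring
  have n3 : (fun w : ℝ => w ^ (D + M) * stp t V w 2) =O[𝓝[>] (0 : ℝ)] fun w => w ^ 4 := by
    refine IsBigO.congr' (O_of_td (bf_two hb tS y4) M 4 (by push_cast; omega)) ?_ EventuallyEq.rfl
    filter_upwards [ev_pos] with w hw
    rw [bf_new t V D _ w hw, show SSTF_ex t 2 = 0 from rfl, sub_zero]
  have t2 : Tendsto (fun w : ℝ => w ^ (1 : ℤ) * bf D V t.2.2 (sw X) w) (𝓝[>] 0) (𝓝 0) := by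
    have := (WST_zpow (n := 1) le_rfl).mul (bf_k hb tS gi y2)
    rwa [zero_mul] at this
  obtain ⟨l1, l2⟩ := sum_of hX (bf_k hb tS hX y1) t2 n3 n1 n2 (add_zero s)
  refine ⟨s, hs, l1, l2, fun h1 => ?_⟩
  obtain ⟨c₁, c₂, c₃, r, hI, hr, hB⟩ := hS h1
  have gS := (SSTE_in hI).1
  obtain ⟨g1, g2, -⟩ := SSTF_in hX hI
  refine ⟨c₁ + 1, c₂ + c₁ + 2 * r.1 + 3, c₃ + c₂ + (2 * r.1 + 3) * c₁ + 3 * r.1 + 2 * r.2.1 + 5, ?_, ?_⟩
  · rw [hd_iff]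
    have k1 := (g1.add g2.shift.shift).sub ((((SSTF_one hb).mul SSTF_u).mul (SSTF_poly 1 1 0 0)).mul gS)
    refine ((k1.add (SSTF_T.zero n3)).congr fun w hw _ => ?_).coef ?_ ?_ ?_ ?_
    · rw [sm_split hX, n1 w hw, n2 w hw]
      unfold bf
      rw [SSTF_mu hX, SSTF_mu gi, zpow_one]
      have h2 : w * w⁻¹ = 1 := mul_inv_cancel₀ hw.ne'
      linear_combination (w * (w ^ D * V w (sw X))) * h2
    all_goals ring
  · have hL : Lf (c₁ + 1) (c₂ + c₁ + 2 * r.1 + 3) (c₃ + c₂ + (2 * r.1 + 3) * c₁ + 3 * r.1 + 2 * r.2.1 + 5) =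
        Lf c₁ c₂ c₃ + (27 + 15 * r.1 + 6 * r.2.1) := by
      unfold Lf
      ring
    have h3 : ((0 : ℤ) : ℝ) ≤ ((pot r + (9 + 15 * r.1 + 6 * r.2.1) : ℤ) : ℝ) := Int.cast_le.2 (hA.hnt r hr)
    rw [hL]
    push_cast at h3 ⊢
    linarith

/-- `|a - c| = 1`, the dominating coordinate changes -/
theorem N_change {S : Finset (ℤ × ℤ × ℤ × ℤ)} {X : Fin 3} (h : H3_Good S X D B V) (hX : X ≠ 2)
    (hb : t.2.2 ≤ -5) {M : ℤ} (hN : Nr t (sw X) M 1) : SumGood (D + (M - 1)) (B + 18) (stp t V) := by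
  obtain ⟨s, κ, hs, hW, -⟩ := h
  obtain ⟨gi, hM, hM5, hes, -⟩ := hN
  rw [(SSTF_sw hX).2.1] at hes
  obtain ⟨y1, y2, y3, y4⟩ := in_X hX hW
  have hκ := hW.2.1
  have tS : Tendsto (fun w : ℝ => w ^ D * sm V w) (𝓝[>] 0) (𝓝 s) := WST_S hW
  have n1 : ∀ w : ℝ, 0 < w → w ^ (D + (M - 1)) * stp t V w X = bf D V t.2.2 X w := by
    intro w hw
    rw [bf_new t V D _ w hw, hes, sub_self, zpow_zero, one_mul]
  have n2 : ∀ w : ℝ, 0 < w → w ^ (D + (M - 1)) * stp t V w (sw X) =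
      w ^ (-1 : ℤ) * bf D V t.2.2 (sw X) w := by
    intro w hw
    rw [bf_new t V D _ w hw, hM]
    congr 2
    ring
  have n3 : (fun w : ℝ => w ^ (D + (M - 1)) * stp t V w 2) =O[𝓝[>] (0 : ℝ)] fun w => w ^ 4 := by
    refine IsBigO.congr' (O_of_td (bf_two hb tS y4) (M - 1) 4 (by push_cast; omega)) ?_ EventuallyEq.rfl
    filter_upwards [ev_pos] with w hw
    rw [bf_new t V D _ w hw, show SSTF_ex t 2 = 0 from rfl, sub_zero]
  exact Sum_weak hs (a := 2 + κ) (by linarith)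
    (sum_of hX (bf_k hb tS hX y1) (bf_kw hb tS gi y3) n3 n1 n2 (by ring))

end

end Pool.Agent.FB.W9
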