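import Pool.Agent.FB.W8.H3

/-!
# FB/W9: closed 4-braids with all exponents `≥ 5`, weaker condition on near ties

Theorem: `|a_i|, |b_i|, |c_i| ≥ 5`, and if `m ≥ 2` and `|a_i - c_i| ≤ 1`, then `b_i` or `b_(i+1)` has the sign
of `a_i` and `c_i`; then `f ≠ 1` for the closure of `σ₂^b₁ σ₁^a₁ σ₃^c₁ ⋯ σ₂^b_m σ₁^a_m σ₃^c_m`.

The proof is the one of `FB/W8`; new: after a near tie `|a - c| ≤ 1`, `a, c > 0`, the row vector is only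
needed through the sum of its coordinates (if the next `b` is positive), or it comes from a block with `b > 0`
(then it is known: ratio `w` or `1`).
-/

set_option autoImplicit false

open Filter Asymptotics Topology Matrix LaurentPolynomial Pool.RU Pool.Agent.FB.W8

namespace Pool.Agent.FB.W9

/-- all exponents are at least `5` -/
def Hyp5 (t : ℤ × ℤ × ℤ) : Prop := 5 ≤ |t.1| ∧ 5 ≤ |t.2.1| ∧ 5 ≤ |t.2.2|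

/-- `t'` follows `t`: if `|a - c| ≤ 1`, then `b` or `b'` has the sign of `a` -/
def NT (t t' : ℤ × ℤ × ℤ) : Prop := |t.1 - t.2.1| ≤ 1 → 0 < t.1 * t.2.2 ∨ 0 < t.1 * t'.2.2

/-- the part of `NT` for positive `a` -/
def NTp (t t' : ℤ × ℤ × ℤ) : Prop := 0 < t.1 → |t.1 - t.2.1| ≤ 1 → 0 < t.2.2 ∨ 0 < t'.2.2

/-- **the theorem** -/
def St_W9 : Prop := ∀ β : List (ℤ × ℤ × ℤ), β ≠ [] → (∀ x ∈ β, Hyp5 x) →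
  (∀ t t' R, β ~r t :: t' :: R → NT t t') →
  ∀ o : Tip 3 (0 + (word β).length) → Bool, (closure β).IsOrientation o → (closure β).normalized o ≠ 1

/-! ### the finite automaton -/

/-- as `St_A` of `W8`, with the ratio `w` added -/
def St_A9 : Prop := ∃ S : Finset (ℤ × ℤ × ℤ × ℤ), (0, 0, 0, 0) ∈ S ∧ (∀ e, 2 ≤ e → nf e ∈ S ∧ pot (nf e) = 0) ∧
  pot (0, 0, 0, 0) = 0 ∧ (∀ r ∈ S, 0 ≤ r.1 ∧ 0 ≤ pot r + cf r ∧ 0 ≤ pot r ∧ ∀ e, 2 ≤ e →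
    (ng e r ∈ S ∧ pot (ng e r) ≤ pot r + cg r) ∧ (r.1 = 0 → nh e r ∈ S ∧ pot (nh e r) ≤ pot r + ch r)) ∧
  (1, 0, 0, 0) ∈ S ∧ pot (1, 0, 0, 0) = 0 ∧ ∀ r ∈ S, 0 ≤ pot r + (9 + 15 * r.1 + 6 * r.2.1)

/-- what is used of the automaton -/
structure Aut (S : Finset (ℤ × ℤ × ℤ × ℤ)) : Prop where
  h0 : ((0, 0, 0, 0) : ℤ × ℤ × ℤ × ℤ) ∈ S
  hnf : ∀ e, 2 ≤ e → nf e ∈ S ∧ pot (nf e) = 0
  hp0 : pot (0, 0, 0, 0) = 0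
  hA : ∀ r ∈ S, 0 ≤ r.1 ∧ 0 ≤ pot r + cf r ∧ 0 ≤ pot r ∧ ∀ e, 2 ≤ e →
    (ng e r ∈ S ∧ pot (ng e r) ≤ pot r + cg r) ∧ (r.1 = 0 → nh e r ∈ S ∧ pot (nh e r) ≤ pot r + ch r)
  h1 : ((1, 0, 0, 0) : ℤ × ℤ × ℤ × ℤ) ∈ S
  hp1 : pot (1, 0, 0, 0) = 0
  hnt : ∀ r ∈ S, 0 ≤ pot r + (9 + 15 * r.1 + 6 * r.2.1)

/-! ### states -/

/-- the sum of the coordinates -/
noncomputable def sm (V : ℝ → Fin 3 → ℝ) (w : ℝ) : ℝ := V w 0 + V w 1 + V w 2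

/-- the sum of the coordinates is known -/
def SumGood (D B : ℤ) (V : ℝ → Fin 3 → ℝ) : Prop :=
  ∃ s : ℝ, 1 ≤ |s| ∧ Tendsto (fun w : ℝ => w ^ D * sm V w) (𝓝[>] 0) (𝓝 s) ∧
    (∀ k, (fun w : ℝ => w ^ D * V w k) =O[𝓝[>] (0 : ℝ)] fun w => w ^ 0) ∧
    (|s| = 1 → ∃ c₁ c₂ c₃ : ℝ, Hd (sm V) s D c₁ c₂ c₃ ∧ (B : ℝ) ≤ Lf c₁ c₂ c₃)

/-- the coordinates `0` and `1` are equal modulo `w⁴` -/
def TieGood (D B : ℤ) (V : ℝ → Fin 3 → ℝ) : Prop :=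
  ∃ s : ℝ, 1 ≤ |s| ∧ Tendsto (fun w : ℝ => w ^ D * V w 0) (𝓝[>] 0) (𝓝 s) ∧
    ((fun w : ℝ => w ^ D * (V w 1 - V w 0)) =O[𝓝[>] (0 : ℝ)] fun w => w ^ 4) ∧
    ((fun w : ℝ => w ^ D * V w 2) =O[𝓝[>] (0 : ℝ)] fun w => w ^ 4) ∧
    (|s| = 1 → ∃ c₁ c₂ c₃ : ℝ, Hd (fun w => V w 0) s D c₁ c₂ c₃ ∧ (B : ℝ) ≤ Lf c₁ c₂ c₃)

/-- the degree won at the block `t`; `none` is the state of a tie -/
def dl9 (Y : Option (Fin 3)) (t : ℤ × ℤ × ℤ) : ℤ :=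
  if 0 < t.2.2 then (if ty t = 2 then t.2.2 else t.2.2 + max t.1 t.2.1 - 1)
  else if ty t = 2 then (if Y = some 2 then -1 else 0)
  else if Y = some 2 then max t.1 t.2.1 - 1
  else if Y = none ∨ t.1 = t.2.1 ∨ Y = some (ty t) then max t.1 t.2.1 else max t.1 t.2.1 - 1

/-- the state after the block `t` -/
def lab (t : ℤ × ℤ × ℤ) : Option (Fin 3) := if t.1 = t.2.1 ∧ 0 < t.1 then none else some (ty t)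

/-- all information before a block with exponent `b` -/
def Good9 (S : Finset (ℤ × ℤ × ℤ × ℤ)) (Y : Option (Fin 3)) (D B b : ℤ) (V : ℝ → Fin 3 → ℝ) : Prop :=
  (0 < b → SumGood D B V) ∧
    (b < 0 → (Y = none → TieGood D B V) ∧ ∀ X, Y = some X → H3_Good S X D B V)

/-! ### the parts -/

/-- the first trace in part I -/
def St_H39 : Prop := ∀ (β : List (ℤ × ℤ × ℤ)) (t : ℤ × ℤ × ℤ), (∀ x ∈ β ++ [t], Hyp5 x) →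
  List.IsChain NTp (β ++ [t]) → t.1 < 0 → t.2.1 < 0 →
  ∃ (s : ℝ) (D : ℤ), Tendsto (fun w : ℝ => w ^ D * F3 (β ++ [t]) w) (𝓝[>] 0) (𝓝 s) ∧ 1 ≤ |s| ∧
    (|s| = 1 → ∃ c₁ c₂ c₃ : ℝ, Hd (F3 (β ++ [t])) s D c₁ c₂ c₃ ∧
      18 * ((β ++ [t]).length : ℝ) + 6 ≤ Lf c₁ c₂ c₃) ∧
    1 + ((β ++ [t]).map gr).sum - (β ++ [t]).length ≤ D

/-- part I -/
def St_P19 : Prop := ∀ β : List (ℤ × ℤ × ℤ), (∀ x ∈ β, Hyp5 x) → (∀ t t' R, β ~r t :: t' :: R → NTp t t') →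
  (∃ t ∈ β, t.1 < 0 ∧ t.2.1 < 0) → 0 ≤ tot β → ¬ Key β

/-- part II -/
def St_P29 : Prop := ∀ β : List (ℤ × ℤ × ℤ), β ≠ [] → (∀ x ∈ β, Hyp5 x) →
  (∀ x ∈ β, ¬ (0 < x.1 ∧ 0 < x.2.1)) → tot β ≤ 0 → ¬ Key β

end Pool.Agent.FB.W9
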