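import Pool.Agent.FB.W9.St

/-!
# FB/W9: the statements of part II, with `Hyp5`
-/

set_option autoImplicit false

open Filter Asymptotics Topology Matrix Pool.Agent.FB.W8

namespace Pool.Agent.FB.W9

/-- **Module PST** (the step of part II) -/
def St_PS9 : Prop := ∀ (X : Fin 3) (D : ℤ) (s c₁ : ℝ) (V : ℝ → Fin 3 → ℝ) (t : ℤ × ℤ × ℤ), Hyp5 t →
  ¬ (0 < t.1 ∧ 0 < t.2.1) → PInv X D s c₁ V → ∃ s' c₁' : ℝ, PInv (ty t) (D + dl X t) s' c₁' (stp t V) ∧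
    |s| ≤ |s'| ∧ c₁ + 1 ≤ c₁' ∧ (X = 2 → ty t = 2 → c₁' = c₁ + 2)

/-- **Module H3P**: the first trace in part II -/
def St_H3P9 : Prop := ∀ β : List (ℤ × ℤ × ℤ), β ≠ [] → (∀ x ∈ β, Hyp5 x) → (∀ x ∈ β, ¬ (0 < x.1 ∧ 0 < x.2.1)) →
  ∃ (X : Fin 3) (s c₁ : ℝ), (∀ h : β ≠ [], X = ty (β.getLast h)) ∧
    ((fun w : ℝ => w ^ (dg X β) * tr3 β w - s * (1 + c₁ * w)) =O[𝓝[>] (0 : ℝ)] fun w => w ^ 2) ∧
    1 ≤ |s| ∧ (β.length : ℝ) ≤ c₁ ∧ ((∀ x ∈ β, ty x = 2) → c₁ = 2 * β.length)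

/-- **Module T2P**: the second trace in part II: it is smaller than the first one by `w³` (`tr3` has degree
`dg X β`), or all blocks have `a, c < 0`, then its leading coefficient is at most `1`. -/
def St_T2P9 : Prop := ∀ (β : List (ℤ × ℤ × ℤ)) (h : β ≠ []), (∀ x ∈ β, Hyp5 x) →
  (∀ x ∈ β, ¬ (0 < x.1 ∧ 0 < x.2.1)) →
  ((∃ x ∈ β, ty x ≠ 2) → (fun w : ℝ => w ^ (dg (ty (β.getLast h)) β) * tr2 β w) =O[𝓝[>] (0 : ℝ)] fun w => w) ∧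
  ((∀ x ∈ β, ty x = 2) → ∃ s : ℝ, |s| ≤ 1 ∧
    (fun w : ℝ => w ^ (dg (ty (β.getLast h)) β) * tr2 β w - s) =O[𝓝[>] (0 : ℝ)] fun w => w)

end Pool.Agent.FB.W9
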